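import Pool.Agent.T2h8.PT.Stm

/-! # Access to the tree (task ACC) -/

set_option autoImplicit false

namespace Pool.Agent.T2h8.PT

open Pool.Agent.NPC Pool.Agent.H801.Pt

theorem tree_length (φ : Fm) : (tree φ).length = 2 * JJ φ - 1 := by
  unfold tree
  rw [List.length_map, List.length_range]

theorem tree_getD (φ : Fm) (k : ℕ) (hk : k < 2 * JJ φ - 1) :
    (tree φ).getD k (0, []) = if k + 1 < JJ φ then (k, (List.range (PP φ)).map (fun _ => true))
      else (k + 1 - JJ φ, (List.range (PP φ)).map (fun x => pres φ (k + 1 - JJ φ) x)) := by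
  have h : k < (tree φ).length := by rw [tree_length]; exact hk
  rw [List.getD_eq_getElem _ _ h]
  simp only [tree, List.getElem_map, List.getElem_range]

theorem range_getD (n r : ℕ) (f : ℕ → Bool) (hr : r < n) :
    ((List.range n).map f).getD r false = f r := by
  have h : r < ((List.range n).map f).length := by simpa using hr
  rw [List.getD_eq_getElem _ _ h]
  simp only [List.getElem_map, List.getElem_range]

theorem JJ_pos {φ : Fm} (h : φ ≠ []) : 1 ≤ JJ φ := by
  have h1 : 1 ≤ φ.length := List.length_pos_iff.2 h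
  unfold JJ
  omega

theorem t_ACC : S_ACC := by
  intro φ hφ
  have hJ := JJ_pos hφ
  refine ⟨tree_length φ, ?_, ?_⟩
  · intro i h1 h2
    have hk : i - 1 < 2 * JJ φ - 1 := by omega
    have hg := tree_getD φ (i - 1) hk
    have e1 : i - 1 + 1 = i := by omega
    rw [e1, if_pos h2] at hg
    refine ⟨?_, ?_, ?_⟩
    · unfold par
      rw [hg]
    · unfold pat
      rw [hg]
      simp
    · intro r hr
      unfold pre pat
      rw [hg]
      exact range_getD _ _ _ hr
  · intro e he
    have hk : JJ φ + e - 1 < 2 * JJ φ - 1 := by omega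
    have hg := tree_getD φ (JJ φ + e - 1) hk
    have e1 : JJ φ + e - 1 + 1 = JJ φ + e := by omega
    have e2 : ¬ (JJ φ + e < JJ φ) := by omega
    have e3 : JJ φ + e - JJ φ = e := by omega
    rw [e1, if_neg e2, e3] at hg
    refine ⟨?_, ?_, ?_⟩
    · unfold par
      rw [hg]
    · unfold pat
      rw [hg]
      simp
    · intro r hr
      unfold pre pat
      rw [hg]
      exact range_getD _ _ _ hr

end Pool.Agent.T2h8.PT
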