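import Pool.Agent.T2h8.PT.T_BLK

/-! Project PT, task BACK: from a covering walk to a satisfying assignment. -/

set_option autoImplicit false

namespace Pool.Agent.T2h8.PT

open Pool.Agent.NPC Pool.Agent.H801.Pt

/-- the times at which a clause is present -/
theorem pres_cls {φ : Fm} (hTIM : S_TIM) {j x : ℕ} (hj : j < φ.length) (hx : x < PP φ)
    (hp : pres φ (nv φ + j) x = true) :
    ∃ q z, (q = reg (cls φ j).1 ∨ q = reg (cls φ j).2.1 ∨ q = reg (cls φ j).2.2) ∧ z ≤ 1 ∧
      x = tm φ q (j + 1) z := by
  obtain ⟨h1, -, h3, -⟩ := hTIM φ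
  obtain ⟨q, k, z, hq, hk, hz, rfl⟩ := h3 x hx
  rw [h1 _ q k z hk hz] at hp
  unfold presq at hp
  rw [if_neg (by omega), if_pos (by omega)] at hp
  simp only [Bool.and_eq_true, Bool.or_eq_true, decide_eq_true_eq] at hp
  obtain ⟨h4, h5, h6⟩ := hp
  have e : nv φ + j - nv φ = j := by omega
  rw [e] at h4 h5
  subst h5
  exact ⟨q, z, h4, h6, rfl⟩

theorem t_BACK (hTIM : S_TIM) (hENT : S_ENT) (hVAR : S_VAR) : S_BACK := by
  classical
  intro φ hB3 hφ hcov
  obtain ⟨pos, h0, hs, hv⟩ := hcov
  have hM := BLK_len_pos hφ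
  have hN := BLK_nv hφ
  have hU := BLK_UU φ
  have hTP := BLK_TT hTIM hφ
  have hV := hVAR φ hφ pos h0 hs hv
  obtain ⟨hE1, hE2⟩ := hENT φ hφ (TT φ) pos hTP h0 hs
  have hlt := (hTIM φ).2.2.2
  have hlen := BLK_tree_length φ
  have hJ : JJ φ = 3 * nv φ + φ.length := rfl
  have hNM : nv φ = 3 * φ.length := rfl
  refine ⟨fun i => decide (pos (tm φ (2 * i + 1) 0 1) = JJ φ + i), fun c hc => ?_⟩
  obtain ⟨j, hj, hcj⟩ := List.getElem_of_mem hc
  have hcls : cls φ j = c := by
    unfold cls
    rw [List.getD_eq_getElem _ _ hj, hcj]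
  obtain ⟨τ, hτ, hpτ⟩ := hv (JJ φ + (nv φ + j)) (by omega)
  obtain ⟨y, hy1, hy2, hy3, hy4⟩ := hE1 (nv φ + j) (by omega) τ hτ hpτ
  obtain ⟨q, z, hq, hz, hyq⟩ := pres_cls hTIM hj (by omega) hy4
  rw [hcls] at hq
  -- the literal of the region is true
  have key : ∀ l : Lit ℕ, l.2 < nv φ → q = reg l →
      decide (pos (tm φ (2 * l.2 + 1) 0 1) = JJ φ + l.2) = l.1 := by
    rintro ⟨b, i⟩ hi hql
    simp only at hi ⊢
    have hlo : tm φ q 0 1 < y := by
      rw [hyq, hlt q 0 1 q (j + 1) z (by omega) (by omega) (by omega) (by omega)]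
      omega
    have hhi : y ≤ tm φ q φ.length 1 := by
      rw [hyq]
      by_contra h
      have h' : tm φ q φ.length 1 < tm φ q (j + 1) z := by omega
      rw [hlt q φ.length 1 q (j + 1) z (by omega) (by omega) (by omega) (by omega)] at h'
      omega
    cases b with
    | true =>
      have hq' : q = 2 * i := by
        rw [hql]
        unfold reg
        simp
      obtain ⟨q', hq2, hocc⟩ := hV i hi
      rcases hq2 with hq2 | hq2
      · exfalso
        have e : q' = q := by omega
        rw [e] at hocc
        have := hocc y hlo.le hhi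
        omega
      · rw [decide_eq_true_eq, ← hq2]
        refine hocc _ le_rfl ?_
        have : tm φ q' 0 1 < tm φ q' φ.length 1 := by
          rw [hlt q' 0 1 q' φ.length 1 (by omega) (by omega) (by omega) (by omega)]
          omega
        exact this.le
    | false =>
      have hq' : q = 2 * i + 1 := by
        rw [hql]
        unfold reg
        simp
      rw [decide_eq_false_iff_not, ← hq']
      intro hpos
      have h3 := hE2 i (by omega) (tm φ q 0 1) y hlo.le (by omega) hpos fun x hx1 hx2 => by
        by_contra hne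
        rw [Bool.not_eq_false] at hne
        obtain ⟨q', hq2, hx⟩ := pres_var hTIM hi (by omega) hne
        have h5 : x < tm φ q φ.length 1 := by omega
        rcases hx with hx | hx
        · have h6 : tm φ q' 0 0 < tm φ q' 0 1 := by
            rw [hlt q' 0 0 q' 0 1 (by omega) (by omega) (by omega) (by omega)]
            omega
          by_cases hqq : q' = q
          · rw [hqq] at hx h6
            omega
          · have h7 : q' < q := by omega
            have h8 : tm φ q' 0 0 < tm φ q 0 1 := by
              rw [hlt q' 0 0 q 0 1 (by omega) (by omega) (by omega) (by omega)]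
              omega
            omega
        · by_cases hqq : q' = q
          · rw [hqq] at hx
            omega
          · have h7 : q' < q := by omega
            have h8 : tm φ q' φ.length 1 < tm φ q 0 1 := by
              rw [hlt q' φ.length 1 q 0 1 (by omega) (by omega) (by omega) (by omega)]
              omega
            omega
      omega
  obtain ⟨hb1, hb2, hb3⟩ := hB3 c hc
  rcases hq with hq | hq | hq
  · exact Or.inl (key c.1 hb1 hq)
  · exact Or.inr (Or.inl (key c.2.1 hb2 hq))
  · exact Or.inr (Or.inr (key c.2.2 hb3 hq))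

end Pool.Agent.T2h8.PT
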