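import Pool.Agent.T2h8.PT.Stm

/-! Project PT, task BLK: the blockers are entered at the offset `0`. -/

set_option autoImplicit false

namespace Pool.Agent.T2h8.PT

open Pool.Agent.NPC Pool.Agent.H801.Pt

theorem BLK_tree_length (φ : Fm) : (tree φ).length = 2 * JJ φ - 1 := by
  unfold tree
  rw [List.length_map, List.length_range]

theorem BLK_len_pos {φ : Fm} (h : φ ≠ []) : 1 ≤ φ.length := List.length_pos_iff.2 h

theorem BLK_UU (φ : Fm) : 2 ≤ UU φ := by
  unfold UU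
  omega

theorem BLK_nv {φ : Fm} (h : φ ≠ []) : 1 ≤ nv φ := by
  have := BLK_len_pos h
  unfold nv
  omega

theorem BLK_TT {φ : Fm} (hTIM : S_TIM) (h : φ ≠ []) : TT φ < PP φ := by
  obtain ⟨-, h2, -, -⟩ := hTIM φ
  have := BLK_nv h
  have := BLK_UU φ
  exact h2 _ _ _ (by omega) (by omega) (by omega)

/-- the times at which a variable is present -/
theorem pres_var {φ : Fm} (hTIM : S_TIM) {i x : ℕ} (hi : i < nv φ) (hx : x < PP φ)
    (hp : pres φ i x = true) :
    ∃ q, (q = 2 * i ∨ q = 2 * i + 1) ∧ (x = tm φ q 0 0 ∨ x = tm φ q φ.length 1) := by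
  obtain ⟨h1, -, h3, -⟩ := hTIM φ
  obtain ⟨q, k, z, hq, hk, hz, rfl⟩ := h3 x hx
  rw [h1 i q k z hk hz] at hp
  unfold presq at hp
  rw [if_pos hi] at hp
  simp only [Bool.and_eq_true, Bool.or_eq_true, decide_eq_true_eq] at hp
  refine ⟨q, hp.1, ?_⟩
  rcases hp.2 with ⟨rfl, rfl⟩ | ⟨rfl, rfl⟩
  · exact Or.inl rfl
  · exact Or.inr rfl

/-- the times at which a blocker is present -/
theorem pres_blk {φ : Fm} (hTIM : S_TIM) {q x : ℕ} (hx : x < PP φ)
    (hp : pres φ (nv φ + φ.length + q) x = true) :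
    ∃ z, z ≤ 1 ∧ x = tm φ q (φ.length + 1) z := by
  obtain ⟨h1, -, h3, -⟩ := hTIM φ
  obtain ⟨q', k, z, hq, hk, hz, rfl⟩ := h3 x hx
  rw [h1 _ q' k z hk hz] at hp
  unfold presq at hp
  rw [if_neg (by omega), if_neg (by omega)] at hp
  simp only [Bool.and_eq_true, decide_eq_true_eq] at hp
  obtain ⟨h4, h5, h6⟩ := hp
  have : q' = q := by omega
  subst this
  subst h5
  exact ⟨z, h6, rfl⟩

theorem t_BLK (hTIM : S_TIM) (hENT : S_ENT) : S_BLK := by
  intro φ hφ pos h0 hs hv q hq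
  have hM := BLK_len_pos hφ
  have hN := BLK_nv hφ
  have hU := BLK_UU φ
  have hTP := BLK_TT hTIM hφ
  obtain ⟨hE1, hE2⟩ := hENT φ hφ (TT φ) pos hTP h0 hs
  have hlt := (hTIM φ).2.2.2
  have hlen := BLK_tree_length φ
  have hJ : JJ φ = 3 * nv φ + φ.length := rfl
  obtain ⟨τ, hτ, hpτ⟩ := hv (JJ φ + (nv φ + φ.length + q)) (by omega)
  obtain ⟨y, hy1, hy2, hy3, hy4⟩ := hE1 (nv φ + φ.length + q) (by omega) τ hτ hpτ
  obtain ⟨z, hz, hyz⟩ := pres_blk hTIM (by omega) hy4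
  by_cases hz0 : z = 0
  · subst hz0
    rw [← hyz]
    exact hy2
  exfalso
  have hz1 : z = 1 := by omega
  subst hz1
  have hyT : tm φ q (φ.length + 1) 1 < TT φ := by omega
  have h1 := (hlt q (φ.length + 1) 1 (2 * nv φ - 1) (φ.length + 1) 1 (by omega) (by omega)
    (by omega) (by omega)).1 hyT
  -- it stays in this leaf
  have hstay : ∀ b, y + 1 ≤ b → b ≤ TT φ → pos b = JJ φ + (nv φ + φ.length + q) := by
    intro b hb1 hb2
    refine hE2 (nv φ + φ.length + q) (by omega) (y + 1) b hb1 hb2 hy3 fun x hx1 hx2 => ?_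
    by_contra hne
    rw [Bool.not_eq_false] at hne
    obtain ⟨z', hz', hxz⟩ := pres_blk hTIM (by omega) hne
    have h2 : tm φ q (φ.length + 1) 1 < tm φ q (φ.length + 1) z' := by omega
    have h3 := (hlt q (φ.length + 1) 1 q (φ.length + 1) z' (by omega) (by omega)
      (by omega) (by omega)).1 h2
    omega
  obtain ⟨τ', hτ', hpτ'⟩ := hv (JJ φ + (nv φ + φ.length + (2 * nv φ - 1))) (by omega)
  obtain ⟨y', hy1', hy2', hy3', hy4'⟩ :=
    hE1 (nv φ + φ.length + (2 * nv φ - 1)) (by omega) τ' hτ' hpτ'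
  obtain ⟨z', hz', hyz'⟩ := pres_blk hTIM (by omega) hy4'
  have h4 : tm φ q (φ.length + 1) 1 < tm φ (2 * nv φ - 1) (φ.length + 1) z' := by
    rw [hlt q (φ.length + 1) 1 (2 * nv φ - 1) (φ.length + 1) z' (by omega) (by omega)
      (by omega) (by omega)]
    omega
  have h5 := hstay y' (by omega) (by omega)
  omega

end Pool.Agent.T2h8.PT
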