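import Pool.Agent.T2h8.PT.Stm

set_option autoImplicit false

namespace Pool.Agent.T2h8.PT

open Pool.Agent.NPC Pool.Agent.H801.Pt

theorem CT.mono {p : ℕ} {T : Tr} {s t : ℕ} (h : Covers p T s) (hst : s ≤ t) : Covers p T t := by
  obtain ⟨pos, h0, h1, h2⟩ := h
  refine ⟨fun τ => pos (min τ s), by simpa using h0, fun τ _ => ?_, fun v hv => ?_⟩
  · by_cases h : τ < s
    · have e1 : min τ s = τ := by omega
      have e2 : min (τ + 1) s = τ + 1 := by omega
      simp only [e1, e2]
      exact h1 τ h
    · have e1 : min τ s = s := by omega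
      have e2 : min (τ + 1) s = s := by omega
      simp only [e1, e2]
      exact Or.inl rfl
  · obtain ⟨τ, hτ, hv⟩ := h2 v hv
    refine ⟨τ, hτ.trans hst, ?_⟩
    have e1 : min τ s = τ := by omega
    simp only [e1]
    exact hv

theorem t_CT : S_CT := by
  intro p T t _ hT
  obtain ⟨s, _, hs⟩ := exists_covers hT
  have hne : {t | Covers p T t}.Nonempty := ⟨s, hs⟩
  constructor
  · intro h
    exact CT.mono (Nat.sInf_mem hne) h
  · intro h
    exact Nat.sInf_le h

end Pool.Agent.T2h8.PT
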