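import Pool.Agent.T2h8.PT.Stm

/-! Project PT, task ENT: entering a leaf, and staying in it. -/

set_option autoImplicit false

namespace Pool.Agent.T2h8.PT

open Pool.Agent.NPC Pool.Agent.H801.Pt

theorem JJ_pos_ent {φ : Fm} (h : φ ≠ []) : 1 ≤ JJ φ := by
  have : 0 < φ.length := List.length_pos_iff.2 h
  unfold JJ
  omega

/-- the step into a leaf -/
theorem step_in (hACC : S_ACC) {φ : Fm} (h : φ ≠ []) {τ x y e : ℕ} (hτ : τ < PP φ)
    (hs : Stp (PP φ) (tree φ) τ x y) (he : e < JJ φ) (hy : y = JJ φ + e) (hne : x ≠ y) :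
    x = e ∧ pres φ e τ = true := by
  obtain ⟨hl, h1, h2⟩ := hACC φ h
  have hJ := JJ_pos_ent h
  rcases hs with hs | ⟨i, hi1, hi2, hp, hs⟩
  · exact absurd hs hne
  · rw [Nat.mod_eq_of_lt hτ] at hp
    rw [hl] at hi2
    by_cases hi : i < JJ φ
    · have h3 := (h1 i hi1 hi).1
      rw [h3] at hs
      omega
    · obtain ⟨e', rfl⟩ : ∃ e', i = JJ φ + e' := ⟨i - JJ φ, by omega⟩
      have he' : e' < JJ φ := by omega
      obtain ⟨h3, -, h4⟩ := h2 e' he'
      rw [h3] at hs
      rw [h4 τ hτ] at hp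
      rcases hs with hs | hs
      · omega
      · have : e' = e := by omega
        subst this
        exact ⟨hs.1, hp⟩

/-- the step out of a leaf -/
theorem step_out (hACC : S_ACC) {φ : Fm} (h : φ ≠ []) {τ x y e : ℕ} (hτ : τ < PP φ)
    (hs : Stp (PP φ) (tree φ) τ x y) (he : e < JJ φ) (hx : x = JJ φ + e) (hne : x ≠ y) :
    pres φ e τ = true := by
  obtain ⟨hl, h1, h2⟩ := hACC φ h
  have hJ := JJ_pos_ent h
  rcases hs with hs | ⟨i, hi1, hi2, hp, hs⟩
  · exact absurd hs hne
  · rw [Nat.mod_eq_of_lt hτ] at hp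
    rw [hl] at hi2
    by_cases hi : i < JJ φ
    · have h3 := (h1 i hi1 hi).1
      rw [h3] at hs
      omega
    · obtain ⟨e', rfl⟩ : ∃ e', i = JJ φ + e' := ⟨i - JJ φ, by omega⟩
      have he' : e' < JJ φ := by omega
      obtain ⟨h3, -, h4⟩ := h2 e' he'
      rw [h3] at hs
      rw [h4 τ hτ] at hp
      rcases hs with hs | hs
      · have : e' = e := by omega
        subst this
        exact hp
      · omega

theorem t_ENT (hACC : S_ACC) : S_ENT := by
  intro φ hφ t pos ht h0 hs
  have hJ := JJ_pos_ent hφ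
  refine ⟨fun e he x hx hpx => ?_, fun e he a b hab hb hpa hno => ?_⟩
  · classical
    have hex : ∃ x, pos x = JJ φ + e := ⟨x, hpx⟩
    have h1 := Nat.find_spec hex
    have h2 : Nat.find hex ≤ x := Nat.find_min' hex hpx
    have h3 : Nat.find hex ≠ 0 := by
      intro h
      rw [h, h0] at h1
      omega
    obtain ⟨y, hy⟩ := Nat.exists_eq_succ_of_ne_zero h3
    have h4 : pos y ≠ JJ φ + e := Nat.find_min hex (by omega)
    rw [hy] at h1 h2
    have h1' : pos (y + 1) = JJ φ + e := h1
    have h2' : y + 1 ≤ x := h2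
    obtain ⟨h5, h6⟩ := step_in hACC hφ (show y < PP φ by omega) (hs y (by omega)) he h1'
      (by rw [h1']; exact h4)
    exact ⟨y, by omega, h5, h1', h6⟩
  · induction b, hab using Nat.le_induction with
    | base => exact hpa
    | succ b hab ih =>
      have h1 := ih (by omega) fun y hy1 hy2 => hno y hy1 (by omega)
      by_contra h2
      have h3 := step_out hACC hφ (show b < PP φ by omega) (hs b (by omega)) he h1
        (by rw [h1]; exact fun h => h2 h.symm)
      rw [hno b hab (by omega)] at h3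
      exact Bool.false_ne_true h3

end Pool.Agent.T2h8.PT
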