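import Pool.Agent.T2h8.PT.T_LEG

set_option autoImplicit false

namespace Pool.Agent.T2h8.PT

open Pool.Agent.NPC Pool.Agent.H801.Pt

namespace FWD

/-- the literal of the region `q` is false -/
def occ (τ : ℕ → Bool) (q : ℕ) : Prop := τ (q / 2) = decide (q % 2 = 1)

theorem not_occ_reg (τ : ℕ → Bool) (l : Lit ℕ) (h : τ l.2 = l.1) : ¬ occ τ (reg l) := by
  unfold occ reg
  rcases l with ⟨b, v⟩
  simp only at h ⊢
  cases b
  · have e1 : (2 * v + 1) / 2 = v := by omega
    have e2 : (2 * v + 1) % 2 = 1 := by omega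
    simp [e1, e2, h]
  · have e1 : (2 * v) / 2 = v := by omega
    have e2 : (2 * v) % 2 = 0 := by omega
    simp [e1, e2, h]

theorem exists_s {φ : Fm} (hb : Bounded3 φ) {τ : ℕ → Bool}
    (hτ : ∀ c ∈ φ, τ c.1.2 = c.1.1 ∨ τ c.2.1.2 = c.2.1.1 ∨ τ c.2.2.2 = c.2.2.1) :
    ∃ s : ℕ → ℕ, ∀ j < φ.length, s j < 2 * nv φ ∧ ¬ occ τ (s j) ∧
      (s j = reg (cls φ j).1 ∨ s j = reg (cls φ j).2.1 ∨ s j = reg (cls φ j).2.2) := by
  have h : ∀ j, ∃ q, j < φ.length → q < 2 * nv φ ∧ ¬ occ τ q ∧
      (q = reg (cls φ j).1 ∨ q = reg (cls φ j).2.1 ∨ q = reg (cls φ j).2.2) := by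
    intro j
    by_cases hj : j < φ.length
    · have hc := LEG.cls_mem hj
      have hbc := hb _ hc
      rcases hτ _ hc with h1 | h1 | h1
      · exact ⟨_, fun _ => ⟨LEG.reg_lt hbc.1, not_occ_reg τ _ h1, Or.inl rfl⟩⟩
      · exact ⟨_, fun _ => ⟨LEG.reg_lt hbc.2.1, not_occ_reg τ _ h1, Or.inr (Or.inl rfl)⟩⟩
      · exact ⟨_, fun _ => ⟨LEG.reg_lt hbc.2.2, not_occ_reg τ _ h1, Or.inr (Or.inr rfl)⟩⟩
    · exact ⟨0, fun h => absurd h hj⟩
  choose s hs using h
  exact ⟨s, fun j hj => hs j hj⟩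

section

variable (φ : Fm) (τ : ℕ → Bool) (s : ℕ → ℕ)

/-- in the leaf at the offset `1`, region `q`, block `k` -/
def act (q k : ℕ) : Prop := q < 2 * nv φ ∧ ((occ τ q ∧ k ≤ φ.length) ∨
  (1 ≤ k ∧ k ≤ φ.length ∧ s (k - 1) = q) ∨ k = φ.length + 1)

/-- in the leaf at the offset `0` -/
def inn (q k : ℕ) : Prop := q < 2 * nv φ ∧ occ τ q ∧ 1 ≤ k ∧ k ≤ φ.length

open Classical in
/-- the job -/
noncomputable def job (q k : ℕ) : ℕ :=
  if q < 2 * nv φ then (if k = φ.length + 1 then nv φ + φ.length + q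
    else if occ τ q then q / 2 else if k = 0 then 0 else nv φ + (k - 1)) else 0

end

variable {φ : Fm} {τ : ℕ → Bool} {s : ℕ → ℕ}

theorem job_lt (h0 : φ ≠ []) (q k : ℕ) (hk : k < φ.length + 2) : job φ τ q k < JJ φ := by
  have hm := LEG.m_pos h0
  unfold job JJ
  have hN : nv φ = 3 * φ.length := rfl
  split_ifs <;> omega

theorem job_blk {q : ℕ} (hq : q < 2 * nv φ) : job φ τ q (φ.length + 1) = nv φ + φ.length + q := by
  unfold job
  rw [if_pos hq, if_pos rfl]

theorem job_occ {q k : ℕ} (hq : q < 2 * nv φ) (ho : occ τ q) (hk : k ≤ φ.length) :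
    job φ τ q k = q / 2 := by
  unfold job
  rw [if_pos hq, if_neg (by omega), if_pos ho]

theorem job_cls {q k : ℕ} (hq : q < 2 * nv φ) (ho : ¬ occ τ q) (hk1 : 1 ≤ k)
    (hk : k ≤ φ.length) : job φ τ q k = nv φ + (k - 1) := by
  unfold job
  rw [if_pos hq, if_neg (by omega), if_neg ho, if_neg (by omega)]

/-- presence for the clauses and the blockers -/
theorem presq_cls {q k z : ℕ} (hk1 : 1 ≤ k) (hk : k ≤ φ.length)
    (hs : q = reg (cls φ (k - 1)).1 ∨ q = reg (cls φ (k - 1)).2.1 ∨ q = reg (cls φ (k - 1)).2.2)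
    (hz : z ≤ 1) : presq φ (nv φ + (k - 1)) q k z = true := by
  unfold presq
  rw [if_neg (by omega), if_pos (by omega)]
  have e1 : nv φ + (k - 1) - nv φ = k - 1 := by omega
  have e2 : k = k - 1 + 1 := by omega
  rw [e1]
  simp only [Bool.and_eq_true, Bool.or_eq_true, decide_eq_true_eq]
  exact ⟨hs, e2, hz⟩

theorem presq_blk {q z : ℕ} (hz : z ≤ 1) :
    presq φ (nv φ + φ.length + q) q (φ.length + 1) z = true := by
  unfold presq
  rw [if_neg (by omega), if_neg (by omega)]
  simp only [Bool.and_eq_true, decide_eq_true_eq]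
  exact ⟨by omega, trivial, hz⟩

theorem presq_var {q k z : ℕ} (hq : q < 2 * nv φ)
    (h : (k = 0 ∧ z = 0) ∨ (k = φ.length ∧ z = 1)) : presq φ (q / 2) q k z = true := by
  unfold presq
  rw [if_pos (by omega)]
  simp only [Bool.and_eq_true, Bool.or_eq_true, decide_eq_true_eq]
  exact ⟨by omega, h⟩

end FWD

theorem FWD.next {M K : ℕ} (hK : K % M + 1 < M) :
    (K + 1) / M = K / M ∧ (K + 1) % M = K % M + 1 := by
  have hM : 0 < M := by omega
  refine (Nat.div_mod_unique hM).2 ⟨?_, hK⟩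
  have := Nat.mod_add_div K M
  omega

theorem FWD.blk {M q k : ℕ} (hk : k < M) : (q * M + k) / M = q ∧ (q * M + k) % M = k := by
  have hM : 0 < M := by omega
  refine (Nat.div_mod_unique hM).2 ⟨?_, hk⟩
  rw [Nat.mul_comm, Nat.add_comm]

open FWD in
theorem t_FWD (hACC : S_ACC) (hTIM : S_TIM) (hSCH : S_SCH) : S_FWD := by
  intro φ hb h0 hsat
  have hm := LEG.m_pos h0
  obtain ⟨τ, hτ⟩ := hsat
  obtain ⟨s, hs⟩ := exists_s hb hτ
  obtain ⟨hlen, hA1, hA2⟩ := hACC φ h0
  obtain ⟨hT1, hT2, -, -⟩ := hTIM φ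
  have hNd : nv φ = 3 * φ.length := rfl
  have hJd : JJ φ = 3 * nv φ + φ.length := rfl
  have hUd : UU φ = JJ φ + 2 := rfl
  have hM : 0 < φ.length + 2 := by omega
  have hmod : ∀ K : ℕ, K % (φ.length + 2) < φ.length + 2 := fun K => Nat.mod_lt _ hM
  set M := φ.length + 2 with hMd
  obtain ⟨pos, hp1, hp2, hp3⟩ := hSCH (JJ φ) (fun K => job φ τ (K / M) (K % M))
    (fun K => inn φ τ (K / M) (K % M)) (fun K => act φ τ s (K / M) (K % M))
    (fun K => job_lt h0 _ _ (hmod K)) (fun K h => ⟨h.1, Or.inl ⟨h.2.1, h.2.2.2⟩⟩)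
    (by
      intro K h
      obtain ⟨h1, h2, h3, h4⟩ := h
      have hK : K % M + 1 < M := by
        by_contra hcon
        have e1 : K % M = M - 1 := by have := hmod K; omega
        have e2 : (K + 1) % M = 0 := by
          rw [Nat.add_mod, e1, Nat.mod_eq_of_lt (show 1 < M by omega)]
          have : M - 1 + 1 = M := by omega
          rw [this, Nat.mod_self]
        omega
      obtain ⟨e1, e2⟩ := next hK
      rw [e1] at h1 h2
      rw [e2] at h3 h4
      refine ⟨⟨h1, Or.inl ⟨h2, by omega⟩⟩, ?_⟩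
      change job φ τ ((K + 1) / M) ((K + 1) % M) = job φ τ (K / M) (K % M)
      rw [e1, e2, job_occ h1 h2 h4, job_occ h1 h2 (by omega)])
    (by
      intro h
      have := h.2.2.1
      rw [Nat.zero_mod] at this
      omega)
  -- the presence at the offset `z`
  have hx : ∀ K z, z < UU φ → K / M < 2 * nv φ → (K * (JJ φ + 2) + z) % PP φ =
      tm φ (K / M) (K % M) z := by
    intro K z hz hK
    have e1 : K * (JJ φ + 2) + z = tm φ (K / M) (K % M) z := by
      unfold tm
      rw [hUd, ← hMd]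
      have : K / M * M + K % M = K := by
        rw [Nat.mul_comm]
        exact Nat.div_add_mod K M
      rw [this]
    rw [e1]
    exact Nat.mod_eq_of_lt (hT2 _ _ _ (hmod K) hz hK)
  have hstep : ∀ K z, z ≤ 1 → K / M < 2 * nv φ →
      presq φ (job φ τ (K / M) (K % M)) (K / M) (K % M) z = true →
      pre (tree φ) (JJ φ + job φ τ (K / M) (K % M)) ((K * (JJ φ + 2) + z) % PP φ) = true := by
    intro K z hz hK hpr
    rw [hx K z (by omega) hK, (hA2 _ (job_lt h0 _ _ (hmod K))).2.2 _
      (hT2 _ _ _ (hmod K) (by omega) hK), hT1 _ _ _ _ (hmod K) (by omega)]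
    exact hpr
  -- the clauses and the blockers
  have hcb : ∀ q k z, q < 2 * nv φ → z ≤ 1 →
      ((1 ≤ k ∧ k ≤ φ.length ∧ s (k - 1) = q) ∨ k = φ.length + 1) →
      presq φ (job φ τ q k) q k z = true := by
    intro q k z hq hz h
    rcases h with ⟨h1, h2, h3⟩ | h1
    · obtain ⟨s1, s2, s3⟩ := hs (k - 1) (by omega)
      rw [h3] at s1 s2 s3
      rw [job_cls hq s2 h1 h2]
      exact presq_cls h1 h2 s3 hz
    · rw [h1, job_blk hq]
      exact presq_blk hz
  refine ⟨pos, ?_, ?_, ?_⟩
  · have h1 := hp1 0 (by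
      intro h
      have := h.2.2.1
      rw [Nat.zero_mod] at this
      omega)
    rw [Nat.zero_mul] at h1
    rw [h1]
    change job φ τ (0 / M) (0 % M) = 0
    rw [Nat.zero_div, Nat.zero_mod]
    unfold job
    rw [if_pos (by omega), if_neg (by omega)]
    split_ifs <;> omega
  · intro x _
    rcases hp3 x with h1 | ⟨h1, h2, h3⟩ | ⟨K, h1, h2, h3, h4, h5⟩ | ⟨K, h1, h2, h3, h4, h5⟩
    · exact Or.inl h1
    · right
      have hP : 0 < PP φ := by
        have hN0 : 0 < nv φ := by omega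
        unfold PP UU
        positivity
      rcases h3 with h3 | h3
      · refine ⟨pos (x + 1), by omega, by omega, ?_, Or.inr ⟨?_, rfl⟩⟩
        · exact (hA1 _ (by omega) h2).2.2 _ (Nat.mod_lt _ hP)
        · rw [(hA1 _ (by omega) h2).1]
          omega
      · refine ⟨pos x, by omega, by omega, ?_, Or.inl ⟨rfl, ?_⟩⟩
        · exact (hA1 _ (by omega) h1).2.2 _ (Nat.mod_lt _ hP)
        · rw [(hA1 _ (by omega) h1).1]
          omega
    · right
      have hj := job_lt (τ := τ) h0 (K / M) (K % M) (hmod K)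
      refine ⟨JJ φ + job φ τ (K / M) (K % M), by omega, by omega, ?_, Or.inr ⟨?_, h5⟩⟩
      · rw [h3]
        refine hstep K 0 (by omega) h2.1 ?_
        rcases h2.2 with ⟨h6, h7⟩ | h6
        · have hk : K % M = 0 := by
            by_contra hne
            exact h1 ⟨h2.1, h6, by omega, h7⟩
          rw [job_occ h2.1 h6 h7]
          exact presq_var h2.1 (Or.inl ⟨hk, rfl⟩)
        · exact hcb _ _ 0 h2.1 (by omega) h6
      · rw [(hA2 _ hj).1]
        exact h4
    · right
      have hj := job_lt (τ := τ) h0 (K / M) (K % M) (hmod K)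
      refine ⟨JJ φ + job φ τ (K / M) (K % M), by omega, by omega, ?_, Or.inl ⟨h4, ?_⟩⟩
      · rw [h3]
        refine hstep K 1 (by omega) h1.1 ?_
        rcases h1.2 with ⟨h6, h7⟩ | h6
        · have hk : K % M = φ.length := by
            by_contra hne
            obtain ⟨e1, e2⟩ := next (M := M) (K := K) (by omega)
            apply h2
            rw [e1, e2]
            exact ⟨h1.1, h6, by omega, by omega⟩
          rw [job_occ h1.1 h6 h7]
          exact presq_var h1.1 (Or.inr ⟨hk, rfl⟩)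
        · exact hcb _ _ 1 h1.1 (by omega) h6
      · rw [(hA2 _ hj).1]
        exact h5
  · -- every vertex is visited
    have hjob : ∀ e < JJ φ, ∃ q k, q < 2 * nv φ ∧ k < M ∧ act φ τ s q k ∧ ¬ inn φ τ q k ∧
        job φ τ q k = e := by
      intro e he
      by_cases h1 : e < nv φ
      · obtain ⟨q, hq1, hq2⟩ : ∃ q, q / 2 = e ∧ occ τ q := by
          rcases Bool.eq_false_or_eq_true (τ e) with h2 | h2
          · refine ⟨2 * e + 1, by omega, ?_⟩
            unfold occ
            have e1 : (2 * e + 1) / 2 = e := by omega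
            have e2 : (2 * e + 1) % 2 = 1 := by omega
            rw [e1, e2, h2]
            rfl
          · refine ⟨2 * e, by omega, ?_⟩
            unfold occ
            have e1 : (2 * e) / 2 = e := by omega
            have e2 : (2 * e) % 2 = 0 := by omega
            rw [e1, e2, h2]
            rfl
        have hq : q < 2 * nv φ := by omega
        refine ⟨q, 0, hq, hM, ⟨hq, Or.inl ⟨hq2, by omega⟩⟩, fun h => ?_, ?_⟩
        · have := h.2.2.1
          omega
        · rw [job_occ hq hq2 (by omega), hq1]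
      · by_cases h2 : e < nv φ + φ.length
        · obtain ⟨s1, s2, s3⟩ := hs (e - nv φ) (by omega)
          refine ⟨s (e - nv φ), e - nv φ + 1, s1, by omega, ⟨s1, Or.inr (Or.inl
            ⟨by omega, by omega, ?_⟩)⟩, fun h => s2 h.2.1, ?_⟩
          · rw [Nat.add_sub_cancel]
          · rw [job_cls s1 s2 (by omega) (by omega)]
            omega
        · have hq : e - (nv φ + φ.length) < 2 * nv φ := by omega
          refine ⟨e - (nv φ + φ.length), φ.length + 1, hq, by omega, ⟨hq, Or.inr (Or.inr rfl)⟩,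
            fun h => ?_, ?_⟩
          · have := h.2.2.2
            omega
          · rw [job_blk hq]
            omega
    have hvis : ∀ e < JJ φ, ∃ K, K * (JJ φ + 2) + 1 ≤ TT φ ∧ pos (K * (JJ φ + 2)) = e ∧
        pos (K * (JJ φ + 2) + 1) = JJ φ + e := by
      intro e he
      obtain ⟨q, k, hq, hk, ha, hi, hj⟩ := hjob e he
      obtain ⟨e1, e2⟩ := blk (q := q) hk
      refine ⟨q * M + k, ?_, ?_, ?_⟩
      · unfold TT tm
        rw [hUd, ← hMd]
        have h1 : q * M + k ≤ (2 * nv φ - 1) * M + (φ.length + 1) := by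
          have h2 : q * M ≤ (2 * nv φ - 1) * M := Nat.mul_le_mul_right _ (by omega)
          omega
        exact Nat.add_le_add_right (Nat.mul_le_mul_right _ h1) 1
      · have h1 := hp1 (q * M + k) (by
          simp only [e1, e2]
          exact hi)
        simp only [e1, e2] at h1
        rw [h1, hj]
      · have h1 := hp2 (q * M + k) (by
          simp only [e1, e2]
          exact ha)
        simp only [e1, e2] at h1
        rw [h1, hj]
    intro v hv
    rw [hlen] at hv
    by_cases h1 : v < JJ φ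
    · obtain ⟨K, hK1, hK2, -⟩ := hvis v h1
      exact ⟨_, by omega, hK2⟩
    · obtain ⟨K, hK1, -, hK2⟩ := hvis (v - JJ φ) (by omega)
      refine ⟨_, hK1, ?_⟩
      rw [hK2]
      omega

end Pool.Agent.T2h8.PT
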