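import Pool.Agent.T2h8.PT.Stm

set_option autoImplicit false

namespace Pool.Agent.T2h8.PT

open Pool.Agent.NPC Pool.Agent.H801.Pt

namespace LEG

theorem m_pos {φ : Fm} (h : φ ≠ []) : 0 < φ.length := List.length_pos_iff.2 h

theorem cls_mem {φ : Fm} {j : ℕ} (hj : j < φ.length) : cls φ j ∈ φ := by
  unfold cls
  rw [List.getD_eq_getElem _ _ hj]
  exact List.getElem_mem hj

theorem reg_lt {φ : Fm} {l : Lit ℕ} (h : l.2 < 3 * φ.length) : reg l < 2 * nv φ := by
  unfold reg nv
  split_ifs <;> omega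

/-- every job has a presence -/
theorem exists_presq {φ : Fm} (hb : Bounded3 φ) (h0 : φ ≠ []) {e : ℕ} (he : e < JJ φ) :
    ∃ q k, q < 2 * nv φ ∧ k < φ.length + 2 ∧ presq φ e q k 0 = true := by
  have hm := m_pos h0
  by_cases h1 : e < nv φ
  · refine ⟨2 * e, 0, by omega, by omega, ?_⟩
    unfold presq
    rw [if_pos h1]
    simp
  · by_cases h2 : e < nv φ + φ.length
    · refine ⟨reg (cls φ (e - nv φ)).1, e - nv φ + 1, ?_, by omega, ?_⟩
      · exact reg_lt (hb _ (cls_mem (by omega))).1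
      · unfold presq
        rw [if_neg h1, if_pos h2]
        simp
    · refine ⟨e - (nv φ + φ.length), φ.length + 1, ?_, by omega, ?_⟩
      · unfold JJ at he
        omega
      · unfold presq
        rw [if_neg h1, if_neg h2]
        have : e - (nv φ + φ.length) + (nv φ + φ.length) = e := by omega
        simp [this]

end LEG

theorem t_LEG (hACC : S_ACC) (hTIM : S_TIM) : S_LEG := by
  intro φ hb h0
  have hm := LEG.m_pos h0
  obtain ⟨hlen, hA1, hA2⟩ := hACC φ h0
  obtain ⟨hT1, hT2, -, -⟩ := hTIM φ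
  have hN : 0 < nv φ := by unfold nv; omega
  have hJ : 0 < JJ φ := by unfold JJ; omega
  have hP : 0 < PP φ := by
    unfold PP UU
    positivity
  constructor
  · intro i hi1 hi2
    rw [hlen] at hi2
    by_cases hi : i < JJ φ
    · obtain ⟨h1, h2, h3⟩ := hA1 i hi1 hi
      exact ⟨by omega, h2, 0, hP, h3 0 hP⟩
    · obtain ⟨e, rfl⟩ : ∃ e, i = JJ φ + e := ⟨i - JJ φ, by omega⟩
      have he : e < JJ φ := by omega
      obtain ⟨h1, h2, h3⟩ := hA2 e he
      obtain ⟨q, k, hq, hk, hpr⟩ := LEG.exists_presq hb h0 he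
      have hU : 0 < UU φ := by unfold UU; omega
      have hlt := hT2 q k 0 hk hU hq
      refine ⟨by omega, h2, tm φ q k 0, hlt, ?_⟩
      rw [h3 _ hlt, hT1 e q k 0 hk hU]
      exact hpr
  · intro v _
    unfold deg
    have hsub : ((Finset.Icc 1 (tree φ).length).filter (fun i => par (tree φ) i = v)) ⊆
        {v + 1, JJ φ + v} := by
      intro i hi
      rw [Finset.mem_filter, Finset.mem_Icc, hlen] at hi
      obtain ⟨⟨hi1, hi2⟩, hi3⟩ := hi
      rw [Finset.mem_insert, Finset.mem_singleton]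
      by_cases hi : i < JJ φ
      · obtain ⟨h1, -, -⟩ := hA1 i hi1 hi
        left
        omega
      · obtain ⟨e, rfl⟩ : ∃ e, i = JJ φ + e := ⟨i - JJ φ, by omega⟩
        obtain ⟨h1, -, -⟩ := hA2 e (by omega)
        right
        omega
    have hc := (Finset.card_le_card hsub).trans Finset.card_le_two
    split_ifs <;> omega

end Pool.Agent.T2h8.PT
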