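import Pool.Agent.T2h8.PT.Stm
import Pool.Agent.H671R2.PolyAuto

/-! # The reduction is computable in polynomial time (task POLY) -/

set_option autoImplicit false

namespace Pool.Agent.T2h8.PT

open Pool.Agent.NPC Pool.Agent.H801.Pt

variable {α : Type} [TEnc α]

@[fun_prop]
theorem poly_nv {f : α → Fm} (hf : Poly f) : Poly (fun a => nv (f a)) := by
  unfold nv
  fun_prop

@[fun_prop]
theorem poly_JJ {f : α → Fm} (hf : Poly f) : Poly (fun a => JJ (f a)) := by
  unfold JJ
  fun_prop

@[fun_prop]
theorem poly_UU {f : α → Fm} (hf : Poly f) : Poly (fun a => UU (f a)) := by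
  unfold UU
  fun_prop

@[fun_prop]
theorem poly_PP {f : α → Fm} (hf : Poly f) : Poly (fun a => PP (f a)) := by
  unfold PP
  fun_prop

@[fun_prop]
theorem poly_TT {f : α → Fm} (hf : Poly f) : Poly (fun a => TT (f a)) := by
  unfold TT tm
  fun_prop

@[fun_prop]
theorem poly_reg {l : α → Lit ℕ} (hl : Poly l) : Poly (fun a => reg (l a)) := by
  unfold reg
  fun_prop

@[fun_prop]
theorem poly_cls {f : α → Fm} {j : α → ℕ} (hf : Poly f) (hj : Poly j) :
    Poly (fun a => cls (f a) (j a)) := by
  unfold cls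
  fun_prop

@[fun_prop]
theorem poly_presq {f : α → Fm} {e q k z : α → ℕ} (hf : Poly f) (he : Poly e) (hq : Poly q)
    (hk : Poly k) (hz : Poly z) : Poly (fun a => presq (f a) (e a) (q a) (k a) (z a)) := by
  unfold presq
  fun_prop

@[fun_prop]
theorem poly_pres {f : α → Fm} {e x : α → ℕ} (hf : Poly f) (he : Poly e) (hx : Poly x) :
    Poly (fun a => pres (f a) (e a) (x a)) := by
  unfold pres
  fun_prop

theorem upoly_len : UPoly (fun φ : Fm => φ.length) := UPoly.length NPC.Poly.id

theorem upoly_nv : UPoly (fun φ : Fm => nv φ) := (UPoly.const 3).mul upoly_len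

theorem upoly_JJ : UPoly (fun φ : Fm => JJ φ) := ((UPoly.const 3).mul upoly_nv).add upoly_len

theorem upoly_UU : UPoly (fun φ : Fm => UU φ) := upoly_JJ.add (UPoly.const 2)

theorem upoly_PP : UPoly (fun φ : Fm => PP φ) :=
  (((UPoly.const 2).mul upoly_nv).mul (upoly_len.add (UPoly.const 2))).mul upoly_UU

theorem poly_rangePP {f : α → Fm} (hf : Poly f) : Poly (fun a => List.range (PP (f a))) :=
  (upoly_PP.comp hf).range

theorem poly_row {f : α → Fm} {k : α → ℕ} (hf : Poly f) (hk : Poly k) :
    Poly (fun a => if k a + 1 < JJ (f a) then (k a, (List.range (PP (f a))).map (fun _ => true))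
      else (k a + 1 - JJ (f a), (List.range (PP (f a))).map
        (fun x => pres (f a) (k a + 1 - JJ (f a)) x))) := by
  have h1 := poly_rangePP hf
  have h2 : Poly (fun a => (List.range (PP (f a))).map (fun _ => true)) := by fun_prop
  have h3 : Poly (fun a => (List.range (PP (f a))).map
        (fun x => pres (f a) (k a + 1 - JJ (f a)) x)) := by fun_prop
  fun_prop

theorem poly_tree : Poly tree := by
  have h0 : UPoly (fun φ : Fm => 2 * JJ φ - 1) :=
    UPoly.of_le (by fun_prop) ((UPoly.const 2).mul upoly_JJ) (fun φ => Nat.sub_le _ _)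
  have h1 : Poly (fun φ : Fm => List.range (2 * JJ φ - 1)) := h0.range
  exact NPC.Poly.map h1 (poly_row (f := fun p : Fm × ℕ => p.1) (k := fun p : Fm × ℕ => p.2)
    (by fun_prop) (by fun_prop))

theorem t_POLY : S_POLY := by
  unfold S_POLY inst
  exact NPC.Poly.pair (poly_PP NPC.Poly.id) (NPC.Poly.pair poly_tree (poly_TT NPC.Poly.id))

end Pool.Agent.T2h8.PT
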