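import Pool.Agent.T2h8.PT.Stm

/-! # Schedules (task SCH) -/

set_option autoImplicit false

namespace Pool.Agent.T2h8.PT

open Pool.Agent.NPC Pool.Agent.H801.Pt

namespace SCH

/-- a walk on the spine -/
def w (a b s : ℕ) : ℕ := if a ≤ b then min (a + s) b else max (a - s) b

theorem w_zero (a b : ℕ) : w a b 0 = a := by
  unfold w
  split_ifs with h
  · simp [h]
  · simp
    omega

theorem w_end {a b s J : ℕ} (ha : a < J) (hb : b < J) (hs : J ≤ s + 1) : w a b s = b := by
  unfold w
  split_ifs with h
  · rw [Nat.min_eq_right]
    omega
  · rw [Nat.max_eq_right]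
    omega

theorem w_lt {a b s J : ℕ} (ha : a < J) (hb : b < J) : w a b s < J := by
  unfold w
  split_ifs with h
  · exact lt_of_le_of_lt (min_le_right _ _) hb
  · rw [Nat.max_lt]
    exact ⟨by omega, hb⟩

theorem w_step (a b s : ℕ) : w a b s = w a b (s + 1) ∨ w a b (s + 1) = w a b s + 1 ∨
    w a b s = w a b (s + 1) + 1 := by
  unfold w
  split_ifs with h
  · rcases Nat.lt_or_ge (a + s) b with h1 | h1
    · rw [Nat.min_eq_left h1.le, Nat.min_eq_left (show a + (s + 1) ≤ b by omega)]
      omega
    · rw [Nat.min_eq_right h1, Nat.min_eq_right (show b ≤ a + (s + 1) by omega)]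
      omega
  · rcases Nat.lt_or_ge b (a - s) with h1 | h1
    · rw [Nat.max_eq_left h1.le, Nat.max_eq_left (show b ≤ a - (s + 1) by omega)]
      omega
    · rw [Nat.max_eq_right h1, Nat.max_eq_right (show a - (s + 1) ≤ b by omega)]
      omega

open Classical in
/-- the position in the block `K` at the offset `z` -/
noncomputable def f (J : ℕ) (job : ℕ → ℕ) (inn act : ℕ → Prop) (K z : ℕ) : ℕ :=
  if z = 0 then (if inn K then J + job K else job K)
  else if z = 1 then (if act K then J + job K else job K)
  else (if inn (K + 1) then J + job K else w (job K) (job (K + 1)) (z - 2))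

theorem div_blk (J K z : ℕ) (hz : z < J + 2) : (K * (J + 2) + z) / (J + 2) = K := by
  rw [mul_comm K, Nat.mul_add_div (by omega), Nat.div_eq_of_lt hz, add_zero]

theorem mod_blk (J K z : ℕ) (hz : z < J + 2) : (K * (J + 2) + z) % (J + 2) = z := by
  rw [mul_comm K, Nat.mul_add_mod, Nat.mod_eq_of_lt hz]

end SCH

open SCH in
theorem t_SCH : S_SCH := by
  intro J job inn act hjob hia hin h0
  have hJ : 1 ≤ J := by
    have := hjob 0
    omega
  set pos : ℕ → ℕ := fun x => f J job inn act (x / (J + 2)) (x % (J + 2)) with hpos
  have key : ∀ K z, z < J + 2 → pos (K * (J + 2) + z) = f J job inn act K z := by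
    intro K z hz
    simp only [hpos]
    rw [div_blk J K z hz, mod_blk J K z hz]
  have key0 : ∀ K, pos (K * (J + 2)) = f J job inn act K 0 := by
    intro K
    have := key K 0 (by omega)
    rw [add_zero] at this
    exact this
  refine ⟨pos, ?_, ?_, ?_⟩
  · intro K hK
    rw [key0]
    unfold f
    rw [if_pos rfl, if_neg hK]
  · intro K hK
    rw [key K 1 (by omega)]
    unfold f
    rw [if_neg (by omega), if_pos rfl, if_pos hK]
  · intro x
    set K := x / (J + 2) with hKdef
    set z := x % (J + 2) with hzdef
    have hx : x = K * (J + 2) + z := (Nat.div_add_mod' x (J + 2)).symm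
    have hz : z < J + 2 := Nat.mod_lt _ (by omega)
    clear_value K z
    subst hx
    rcases Nat.eq_zero_or_pos z with h | h
    · subst h
      have e1 : pos (K * (J + 2) + 0) = f J job inn act K 0 := key K 0 hz
      have e2 : pos (K * (J + 2) + 0 + 1) = f J job inn act K 1 := key K 1 (by omega)
      rw [e1, e2]
      by_cases hi : inn K
      · left
        unfold f
        rw [if_pos rfl, if_neg (by omega : ¬ (1 = 0)), if_pos rfl, if_pos hi, if_pos (hia K hi)]
      · by_cases ha : act K
        · right
          right
          left
          refine ⟨K, hi, ha, by ring, ?_, ?_⟩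
          · unfold f
            rw [if_pos rfl, if_neg hi]
          · unfold f
            rw [if_neg (by omega : ¬ (1 = 0)), if_pos rfl, if_pos ha]
        · left
          unfold f
          rw [if_pos rfl, if_neg (by omega : ¬ (1 = 0)), if_pos rfl, if_neg hi, if_neg ha]
    · rcases Nat.lt_or_ge z 2 with h1 | h1
      · obtain rfl : z = 1 := by omega
        have e1 : pos (K * (J + 2) + 1) = f J job inn act K 1 := key K 1 hz
        have e2 : pos (K * (J + 2) + 1 + 1) = f J job inn act K 2 := key K 2 (by omega)
        rw [e1, e2]
        have f1 : ∀ (h : act K), f J job inn act K 1 = J + job K := by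
          intro ha
          unfold f
          rw [if_neg (by omega : ¬ (1 = 0)), if_pos rfl, if_pos ha]
        have f1' : ∀ (h : ¬ act K), f J job inn act K 1 = job K := by
          intro ha
          unfold f
          rw [if_neg (by omega : ¬ (1 = 0)), if_pos rfl, if_neg ha]
        by_cases hi : inn (K + 1)
        · left
          rw [f1 (hin K hi).1]
          unfold f
          rw [if_neg (by omega : ¬ (2 = 0)), if_neg (by omega : ¬ (2 = 1)), if_pos hi]
        · have f2 : f J job inn act K 2 = job K := by
            unfold f
            rw [if_neg (by omega : ¬ (2 = 0)), if_neg (by omega : ¬ (2 = 1)), if_neg hi]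
            exact w_zero _ _
          by_cases ha : act K
          · right
            right
            right
            exact ⟨K, ha, hi, rfl, f1 ha, f2⟩
          · left
            rw [f1' ha, f2]
      · have fz : ∀ u, 2 ≤ u → inn (K + 1) → f J job inn act K u = J + job K := by
          intro u hu hi
          unfold f
          rw [if_neg (by omega : ¬ (u = 0)), if_neg (by omega : ¬ (u = 1)), if_pos hi]
        have fz' : ∀ u, 2 ≤ u → ¬ inn (K + 1) →
            f J job inn act K u = w (job K) (job (K + 1)) (u - 2) := by
          intro u hu hi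
          unfold f
          rw [if_neg (by omega : ¬ (u = 0)), if_neg (by omega : ¬ (u = 1)), if_neg hi]
        have e1 : pos (K * (J + 2) + z) = f J job inn act K z := key K z hz
        rcases Nat.lt_or_ge (z + 1) (J + 2) with h2 | h2
        · have e2 : pos (K * (J + 2) + z + 1) = f J job inn act K (z + 1) := key K (z + 1) h2
          rw [e1, e2]
          by_cases hi : inn (K + 1)
          · left
            rw [fz z h1 hi, fz (z + 1) (by omega) hi]
          · rw [fz' z h1 hi, fz' (z + 1) (by omega) hi]
            have e3 : z + 1 - 2 = z - 2 + 1 := by omega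
            rw [e3]
            rcases w_step (job K) (job (K + 1)) (z - 2) with g | g
            · exact Or.inl g
            · exact Or.inr (Or.inl ⟨w_lt (hjob _) (hjob _), w_lt (hjob _) (hjob _), g⟩)
        · obtain rfl : z = J + 1 := by omega
          have e2 : pos (K * (J + 2) + (J + 1) + 1) = f J job inn act (K + 1) 0 := by
            rw [← key0 (K + 1)]
            congr 1
            ring
          rw [e1, e2]
          left
          by_cases hi : inn (K + 1)
          · rw [fz _ (by omega) hi]
            unfold f
            rw [if_pos rfl, if_pos hi, (hin K hi).2]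
          · rw [fz' _ (by omega) hi]
            unfold f
            rw [if_pos rfl, if_neg hi]
            exact w_end (hjob _) (hjob _) (by omega)

end Pool.Agent.T2h8.PT
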