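import Pool.Agent.T2h8.PT.Stm

/-! # Arithmetic of times (task TIM) -/

set_option autoImplicit false

namespace Pool.Agent.T2h8.PT

open Pool.Agent.NPC Pool.Agent.H801.Pt

theorem UU_pos (φ : Fm) : 0 < UU φ := by
  unfold UU
  omega

theorem tm_div (φ : Fm) (q k z : ℕ) (hz : z < UU φ) :
    tm φ q k z / UU φ = q * (φ.length + 2) + k := by
  unfold tm
  rw [mul_comm _ (UU φ), Nat.mul_add_div (UU_pos φ), Nat.div_eq_of_lt hz, add_zero]

theorem tm_mod (φ : Fm) (q k z : ℕ) (hz : z < UU φ) : tm φ q k z % UU φ = z := by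
  unfold tm
  rw [mul_comm _ (UU φ), Nat.mul_add_mod, Nat.mod_eq_of_lt hz]

theorem blk_div (m q k : ℕ) (hk : k < m + 2) : (q * (m + 2) + k) / (m + 2) = q := by
  rw [mul_comm q, Nat.mul_add_div (by omega), Nat.div_eq_of_lt hk, add_zero]

theorem blk_mod (m q k : ℕ) (hk : k < m + 2) : (q * (m + 2) + k) % (m + 2) = k := by
  rw [mul_comm q, Nat.mul_add_mod, Nat.mod_eq_of_lt hk]

theorem lt_iff_block (U a z a' z' : ℕ) (hz : z < U) (hz' : z' < U) :
    a * U + z < a' * U + z' ↔ a < a' ∨ (a = a' ∧ z < z') := by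
  constructor
  · intro h
    rcases Nat.lt_trichotomy a a' with h1 | h1 | h1
    · exact Or.inl h1
    · subst h1
      exact Or.inr ⟨rfl, by omega⟩
    · exfalso
      have h2 : (a' + 1) * U ≤ a * U := Nat.mul_le_mul_right U h1
      rw [Nat.add_mul, one_mul] at h2
      omega
  · rintro (h | ⟨rfl, h⟩)
    · have h2 : (a + 1) * U ≤ a' * U := Nat.mul_le_mul_right U h
      rw [Nat.add_mul, one_mul] at h2
      omega
    · omega

theorem t_TIM : S_TIM := by
  intro φ
  refine ⟨?_, ?_, ?_, ?_⟩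
  · intro e q k z hk hz
    unfold pres
    rw [tm_div φ q k z hz, tm_mod φ q k z hz, blk_div _ _ _ hk, blk_mod _ _ _ hk]
  · intro q k z hk hz hq
    unfold tm PP
    have h1 : (q * (φ.length + 2) + k) * UU φ + z < (q * (φ.length + 2) + k + 1) * UU φ := by
      rw [Nat.add_mul _ 1, one_mul]
      omega
    have h2 : q * (φ.length + 2) + k + 1 ≤ 2 * nv φ * (φ.length + 2) := by
      have h3 : (q + 1) * (φ.length + 2) ≤ 2 * nv φ * (φ.length + 2) :=
        Nat.mul_le_mul_right _ hq
      rw [Nat.add_mul q 1, one_mul] at h3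
      omega
    exact lt_of_lt_of_le h1 (Nat.mul_le_mul_right _ h2)
  · intro x hx
    refine ⟨x / UU φ / (φ.length + 2), x / UU φ % (φ.length + 2), x % UU φ, ?_,
      Nat.mod_lt _ (by omega), Nat.mod_lt _ (UU_pos φ), ?_⟩
    · have h1 : x / UU φ < 2 * nv φ * (φ.length + 2) := by
        rw [Nat.div_lt_iff_lt_mul (UU_pos φ)]
        exact hx
      rw [Nat.div_lt_iff_lt_mul (by omega)]
      exact h1
    · unfold tm
      have h1 := Nat.div_add_mod' (x / UU φ) (φ.length + 2)
      have h2 := Nat.div_add_mod' x (UU φ)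
      rw [h1, h2]
  · intro q k z q' k' z' hk hz hk' hz'
    unfold tm
    rw [lt_iff_block _ _ _ _ _ hz hz', lt_iff_block _ _ _ _ _ hk hk']
    constructor
    · rintro ((h | ⟨h1, h2⟩) | ⟨h1, h2⟩)
      · exact Or.inl h
      · exact Or.inr ⟨h1, Or.inl h2⟩
      · have h3 : q = q' := by
          have := congrArg (fun t => t / (φ.length + 2)) h1
          rw [blk_div _ _ _ hk, blk_div _ _ _ hk'] at this
          exact this
        have h4 : k = k' := by
          have := congrArg (fun t => t % (φ.length + 2)) h1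
          rw [blk_mod _ _ _ hk, blk_mod _ _ _ hk'] at this
          exact this
        exact Or.inr ⟨h3, Or.inr ⟨h4, h2⟩⟩
    · rintro (h | ⟨h1, h2 | ⟨h3, h4⟩⟩)
      · exact Or.inl (Or.inl h)
      · exact Or.inl (Or.inr ⟨h1, h2⟩)
      · subst h1
        subst h3
        exact Or.inr ⟨rfl, h4⟩

end Pool.Agent.T2h8.PT
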