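import Pool.Agent.T2h8.PT.T_BLK

/-! Project PT, task VAR: every variable occupies one of its regions. -/

set_option autoImplicit false

namespace Pool.Agent.T2h8.PT

open Pool.Agent.NPC Pool.Agent.H801.Pt

theorem t_VAR (hTIM : S_TIM) (hENT : S_ENT) (hBLK : S_BLK) : S_VAR := by
  intro φ hφ pos h0 hs hv i hi
  have hM := BLK_len_pos hφ
  have hN := BLK_nv hφ
  have hU := BLK_UU φ
  have hTP := BLK_TT hTIM hφ
  have hB := hBLK φ hφ pos h0 hs hv
  obtain ⟨hE1, hE2⟩ := hENT φ hφ (TT φ) pos hTP h0 hs
  have hlt := (hTIM φ).2.2.2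
  have hlen := BLK_tree_length φ
  have hJ : JJ φ = 3 * nv φ + φ.length := rfl
  have hTT : TT φ = tm φ (2 * nv φ - 1) (φ.length + 1) 1 := rfl
  obtain ⟨τ, hτ, hpτ⟩ := hv (JJ φ + i) (by omega)
  obtain ⟨y, hy1, hy2, hy3, hy4⟩ := hE1 i (by omega) τ hτ hpτ
  obtain ⟨q, hq, hyq⟩ := pres_var hTIM hi (by omega) hy4
  have hq2 : q < 2 * nv φ := by omega
  rcases hyq with hyq | hyq
  · refine ⟨q, hq, fun y' h1 h2 => ?_⟩
    have h01 : tm φ q 0 1 = y + 1 := by
      rw [hyq]
      unfold tm
      omega
    have h3 : tm φ q φ.length 1 < TT φ := by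
      rw [hTT, hlt q φ.length 1 (2 * nv φ - 1) (φ.length + 1) 1 (by omega) (by omega)
        (by omega) (by omega)]
      omega
    refine hE2 i (by omega) (y + 1) y' (by omega) (by omega) hy3 fun x hx1 hx2 => ?_
    by_contra hne
    rw [Bool.not_eq_false] at hne
    obtain ⟨q', hq', hx⟩ := pres_var hTIM hi (by omega) hne
    have h4 : tm φ q 0 0 < x := by omega
    have h5 : x < tm φ q φ.length 1 := by omega
    rcases hx with hx | hx
    · rw [hx, hlt q 0 0 q' 0 0 (by omega) (by omega) (by omega) (by omega)] at h4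
      rw [hx, hlt q' 0 0 q φ.length 1 (by omega) (by omega) (by omega) (by omega)] at h5
      omega
    · rw [hx, hlt q 0 0 q' φ.length 1 (by omega) (by omega) (by omega) (by omega)] at h4
      rw [hx, hlt q' φ.length 1 q φ.length 1 (by omega) (by omega) (by omega) (by omega)] at h5
      omega
  · exfalso
    have h1 : y < tm φ q (φ.length + 1) 0 := by
      rw [hyq, hlt q φ.length 1 q (φ.length + 1) 0 (by omega) (by omega) (by omega) (by omega)]
      omega
    have h2 : tm φ q (φ.length + 1) 0 < TT φ := by
      rw [hTT, hlt q (φ.length + 1) 0 (2 * nv φ - 1) (φ.length + 1) 1 (by omega) (by omega)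
        (by omega) (by omega)]
      omega
    have h3 := hE2 i (by omega) (y + 1) (tm φ q (φ.length + 1) 0) (by omega) (by omega) hy3
      fun x hx1 hx2 => by
        by_contra hne
        rw [Bool.not_eq_false] at hne
        obtain ⟨q', hq', hx⟩ := pres_var hTIM hi (by omega) hne
        have h4 : tm φ q φ.length 1 < x := by omega
        have h5 : x < tm φ q (φ.length + 1) 0 := by omega
        rcases hx with hx | hx
        · rw [hx, hlt q φ.length 1 q' 0 0 (by omega) (by omega) (by omega) (by omega)] at h4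
          rw [hx, hlt q' 0 0 q (φ.length + 1) 0 (by omega) (by omega) (by omega) (by omega)] at h5
          omega
        · rw [hx, hlt q φ.length 1 q' φ.length 1 (by omega) (by omega) (by omega) (by omega)] at h4
          rw [hx, hlt q' φ.length 1 q (φ.length + 1) 0 (by omega) (by omega) (by omega)
            (by omega)] at h5
          omega
    rw [hB q hq2] at h3
    omega

end Pool.Agent.T2h8.PT
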