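import Pool.Agent.T2h8.PT.T_NP

/-!
# The final steps: hardness, and the equivalence with `P = NP`
-/

set_option autoImplicit false

namespace Pool.Agent.T2h8.PT

open Pool.Agent.NPC Pool.Agent.H801.Pt NPt

/-- a polynomial-time function on bit strings, applied to codes -/
theorem poly_oracle {A : List Bool → List Bool} (hA : PolyTime A) {α : Type} [TEnc α] :
    Poly (fun a : α => A (bits a)) := by
  have h0 : PC (bits : α → List Bool) (fun x : List Bool => x) (fun a : α => bits a) := by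
    obtain ⟨c, p, h⟩ := (Poly.id : Poly (fun a : α => a))
    exact ⟨c, p, h⟩
  have h1 : PC (fun x : List Bool => x) (fun x : List Bool => x) A :=
    Pool.Agent.H642R2.TMSim.polyTime_toPC hA
  have h2 : PC (bits : α → List Bool) (fun x : List Bool => x) (fun a : α => A (bits a)) :=
    PC.comp (g := A) h1 h0
  exact PC.comp (g := fun x : List Bool => x) (f := fun a : α => A (bits a)) PC.rawIn h2

/-- A comb with `J` teeth: the spine is the path `0, 1, …, J - 1` whose edges are present at all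
times, and every vertex `e` of the spine has exactly one further neighbour, the leaf `J + e`. -/
def IsComb (p : ℕ) (T : Tr) : Prop :=
  ∃ J, 1 ≤ J ∧ T.length = 2 * J - 1 ∧
    (∀ i, 1 ≤ i → i < J → par T i = i - 1 ∧ ∀ r < p, pre T i r = true) ∧
    ∀ e, e < J → par T (J + e) = e

/-- The decision problem for combs: given a period `p`, a periodic temporal comb `T` of period `p`,
of maximum degree at most three, and a time `t`, is the cover time at most `t`? -/
def Dcomb (x : ℕ × Tr × ℕ) : Prop :=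
  1 ≤ x.1 ∧ Legal x.1 x.2.1 ∧ IsComb x.1 x.2.1 ∧ MaxDeg 3 x.2.1 ∧ coverTime x.1 x.2.1 ≤ x.2.2

/-- the promise: a periodic temporal comb of maximum degree at most three -/
def Ok (x : ℕ × Tr × ℕ) : Prop :=
  1 ≤ x.1 ∧ Legal x.1 x.2.1 ∧ IsComb x.1 x.2.1 ∧ MaxDeg 3 x.2.1

theorem isComb_tree (hACC : S_ACC) {φ : Fm} (h : φ ≠ []) : IsComb (PP φ) (tree φ) := by
  obtain ⟨h1, h2, h3⟩ := hACC φ h
  have h0 : 0 < φ.length := List.length_pos_iff.2 h
  refine ⟨JJ φ, ?_, h1, fun i hi hj => ⟨(h2 i hi hj).1, (h2 i hi hj).2.2⟩, fun e he => (h3 e he).1⟩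
  unfold JJ
  omega

theorem PP_pos {φ : Fm} (h : φ ≠ []) : 1 ≤ PP φ := by
  have : 0 < φ.length := List.length_pos_iff.2 h
  have h2 : 0 < PP φ := by
    unfold PP UU nv
    positivity
  exact h2

theorem hardOk (hACC : S_ACC) (hLEG : S_LEG) (hBACK : S_BACK) (hFWD : S_FWD) (hCT : S_CT) (hPOLY : S_POLY) :
    HardPr Ok (fun x => coverTime x.1 x.2.1 ≤ x.2.2) :=
  hardPr_SAT3b.trans hPOLY
    (fun φ hφ => ⟨PP_pos hφ.2.2, (hLEG φ hφ.2.1 hφ.2.2).1, isComb_tree hACC hφ.2.2,
      (hLEG φ hφ.2.1 hφ.2.2).2⟩)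
    (fun φ hφ => by
      show SAT3 φ ↔ coverTime (PP φ) (tree φ) ≤ TT φ
      rw [hCT (PP φ) (tree φ) (TT φ) (PP_pos hφ.2.2) (hLEG φ hφ.2.1 hφ.2.2).1]
      exact ⟨hFWD φ hφ.2.1 hφ.2.2, hBACK φ hφ.2.1 hφ.2.2⟩)

theorem hardDcomb (h : HardPr Ok (fun x => coverTime x.1 x.2.1 ≤ x.2.2)) : NPHardP Dcomb := by
  refine HardI.toNPHardP (HardPr.toHardI (Pr := Ok) (HardPr.trans (f := fun x => x) h Poly.id
    (fun a ha => ha) fun a ha => ?_))
  unfold Dcomb
  exact ⟨fun h => ⟨ha.1, ha.2.1, ha.2.2.1, ha.2.2.2, h⟩, fun h => h.2.2.2.2⟩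

theorem hardDmvp (h : HardPr Ok (fun x => coverTime x.1 x.2.1 ≤ x.2.2)) : NPHardP Dmvp := by
  refine HardI.toNPHardP (HardPr.toHardI (Pr := Ok) (HardPr.trans (f := fun x => x) h Poly.id
    (fun a ha => ha) fun a ha => ?_))
  unfold Dmvp
  exact ⟨fun h => ⟨ha.1, ha.2.1, ha.2.2.2, h⟩, fun h => h.2.2.2⟩

/-- An algorithm which computes the cover time of combs gives `P = NP`. -/
theorem collapse (h : HardPr Ok (fun x => coverTime x.1 x.2.1 ≤ x.2.2))
    {F : List Bool → List Bool} (hF : PolyTime F)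
    (hF' : ∀ (p : ℕ) (T : Tr), 1 ≤ p → Legal p T → IsComb p T → MaxDeg 3 T →
      F (bits (p, T)) = bits (coverTime p T)) : ∀ L, InNP L → InP L := by
  refine h.collapse (d := fun a : ℕ × Tr × ℕ => (unbits ℕ (F (bits (a.1, a.2.1)))).any
    (fun c => decide (c ≤ a.2.2))) ?_ ?_
  · have h1 : Poly (fun a : ℕ × Tr => F (bits a)) := poly_oracle hF
    have h2 : Poly (fun a : ℕ × Tr × ℕ => F (bits (a.1, a.2.1))) :=
      h1.comp (Poly.pair (Poly.fst Poly.id) (Poly.fst (Poly.snd Poly.id)))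
    have h3 : Poly (fun a : ℕ × Tr × ℕ => unbits ℕ (F (bits (a.1, a.2.1)))) :=
      poly_unbits.comp h2
    exact Poly.optAny_fp h3 (by fun_prop)
  · intro a ha
    rw [hF' a.1 a.2.1 ha.1 ha.2.1 ha.2.2.1 ha.2.2.2, unbits_bits]
    simp

/-- The decision problem for arbitrary trees. -/
def Dall (x : ℕ × Tr × ℕ) : Prop :=
  1 ≤ x.1 ∧ Legal x.1 x.2.1 ∧ coverTime x.1 x.2.1 ≤ x.2.2

/-- the verifier -/
def verA (x : (ℕ × Tr × ℕ) × List ℕ) : Bool :=
  decide (1 ≤ x.1.1) && (legB x.1.1 x.1.2.1 && walkB x.1.1 x.1.2.1 x.1.2.2 x.2)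

theorem p_verA : Poly verA := by unfold verA; fun_prop

theorem all_aux (a : ℕ × Tr × ℕ) : Dall a ↔ ∃ w : List ℕ,
    sz w ≤ ((2 * Polynomial.X ^ 3 + 1) * (4 * Polynomial.X + 2) + 1 : Polynomial ℕ).eval (sz a) ∧
      verA (a, w) = true := by
  obtain ⟨p, T, t⟩ := a
  unfold Dall verA
  simp only [Bool.and_eq_true, decide_eq_true_eq, legB_iff]
  constructor
  · rintro ⟨h1, h2, h4⟩
    obtain ⟨t0, ht0, hc0⟩ := exists_covers h2
    have h5 : coverTime p T ≤ t0 := Nat.sInf_le hc0
    have h6 : Covers p T (coverTime p T) := Nat.sInf_mem (s := {t | Covers p T t}) ⟨t0, hc0⟩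
    obtain ⟨w, hw1, hw2, hw3⟩ := walk_of_covers h2 h4 h6
    refine ⟨w, ?_, h1, h2, hw3⟩
    have h7 : ∀ x ∈ w, sz x ≤ 4 * sz T + 1 := by
      intro x hx
      have e1 := sz_nat_le x
      have e2 := Poly.size_le_self x
      have e3 := hw2 x hx
      have e4 := length_lt_sz T
      omega
    have h8 := sz_le_length_mul w (4 * sz T + 1) h7
    have h9 := sz_bnd h2
    have h10 : sz T ≤ sz (p, T, t) := by simp only [sz_pair]; omega
    have h11 : w.length ≤ 2 * sz (p, T, t) ^ 3 + 1 := by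
      have e1 : sz T ^ 3 ≤ sz (p, T, t) ^ 3 := Nat.pow_le_pow_left h10 3
      omega
    simp only [Polynomial.eval_add, Polynomial.eval_mul, Polynomial.eval_pow, Polynomial.eval_X,
      Polynomial.eval_one, Polynomial.eval_ofNat]
    refine h8.trans (Nat.add_le_add_right (Nat.mul_le_mul h11 ?_) 1)
    omega
  · rintro ⟨w, -, h1, h2, h4⟩
    obtain ⟨t', ht', hc⟩ := covers_of_walk h4
    exact ⟨h1, h2, (Nat.sInf_le hc : coverTime p T ≤ t').trans ht'⟩

theorem np_all : InNPP Dall := NPC.inNPP_of p_verA _ all_aux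

/-- the search range -/
def rng (T : Tr) : List ℕ := List.range (2 * (pat T 1).length * (T.length * T.length) + 1)

theorem p_rng : Poly rng := by
  unfold rng
  refine UPoly.range (UPoly.add (UPoly.mul (UPoly.mul (UPoly.const 2) (UPoly.length ?_))
    (UPoly.mul (UPoly.length Poly.id) (UPoly.length Poly.id))) (UPoly.const 1))
  fun_prop

theorem rng_eq {p : ℕ} {T : Tr} (hT : Legal p T) : rng T = List.range (bnd p T) := by
  unfold rng bnd
  by_cases h : T.length = 0
  · rw [h]
    simp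
  · rw [(hT 1 le_rfl (by omega)).2.1]

theorem count_lt (c B : ℕ) (h : c ≤ B) :
    ((List.range B).filter fun t => !decide (c ≤ t)).length = c := by
  have h1 : ((List.range B).filter fun t => !decide (c ≤ t)).length =
      (((Finset.range B).filter fun t => t < c)).card := by
    rw [Finset.card_def, Finset.filter_val, Finset.range_val, Multiset.range,
      Multiset.filter_coe, Multiset.coe_card]
    congr 1
    refine List.filter_congr fun t _ => ?_
    by_cases h : c ≤ t
    · simp [h]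
    · simp [h, Nat.lt_of_not_le h]
  rw [h1]
  have : (Finset.range B).filter (fun t => t < c) = Finset.range c := by
    ext t
    simp only [Finset.mem_filter, Finset.mem_range]
    omega
  rw [this, Finset.card_range]

/-- If `P = NP` then the cover time of every periodic temporal tree is computed in polynomial
time. -/
theorem search (h : ∀ L, InNP L → InP L) : ∃ F : List Bool → List Bool, PolyTime F ∧
    ∀ (p : ℕ) (T : Tr), 1 ≤ p → Legal p T → F (bits (p, T)) = bits (coverTime p T) := by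
  obtain ⟨A, hA, hA'⟩ := h _ np_all
  let G : ℕ × Tr → ℕ := fun a => ((rng a.2).filter fun t =>
    !decide (A (bits (a.1, a.2, t)) = [true])).length
  have hG : Poly G := by
    have h1 : Poly (fun a : ℕ × Tr × ℕ => A (bits a)) := poly_oracle hA
    have h2 : Poly (fun q : (ℕ × Tr) × ℕ => A (bits (q.1.1, q.1.2, q.2))) :=
      h1.comp (f := fun q : (ℕ × Tr) × ℕ => (q.1.1, q.1.2, q.2)) (by fun_prop)
    have h3 : Poly (fun a : ℕ × Tr => rng a.2) := p_rng.comp (Poly.snd Poly.id)
    refine Poly.length (Poly.filter h3 ?_)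
    exact NPC.Poly.not (NPC.Poly.dec_eq h2 (NPC.Poly.const _))
  refine ⟨fun x => bits (match unbits (ℕ × Tr) x with
    | none => 0
    | some a => G a), ?_, fun p T hp hT => ?_⟩
  · refine polyTime_bits ((Poly.optCases (o := fun x => unbits (ℕ × Tr) x)
      (g := fun _ => 0) (h := fun _ a => G a) poly_unbits (NPC.Poly.const 0)
      (hG.comp (Poly.snd Poly.id))).congr fun x => ?_)
    cases unbits (ℕ × Tr) x <;> rfl
  · simp only [unbits_bits]
    congr 1
    obtain ⟨t0, ht0, hc0⟩ := exists_covers hT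
    have h5 : coverTime p T ≤ t0 := Nat.sInf_le hc0
    have h6 : ∀ t, (A (bits (p, T, t)) = [true]) ↔ coverTime p T ≤ t := by
      intro t
      rw [← hA', mem_lang_iff]
      constructor
      · rintro ⟨a, ha, h1, h2, h3⟩
        rw [unbits_bits] at ha
        obtain rfl := Option.some.inj ha
        exact h3
      · intro h7
        exact ⟨(p, T, t), unbits_bits _, hp, hT, h7⟩
    show ((rng T).filter fun t => !decide (A (bits (p, T, t)) = [true])).length = _
    rw [rng_eq hT]
    simp only [h6]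
    exact count_lt _ _ (by omega)

end Pool.Agent.T2h8.PT
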