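import Pool.Agent.H801.Pt.Correct
import Pool.Agent.NPC.Sat2
import Pool.Agent.NPC.Dec

/-!
# Covering periodic temporal trees of maximum degree three is NP-complete (MP_ce2681_lc, Q2)

The reduction from 3SAT.  `φ` has `m` clauses, the variables are `0, …, N - 1` with `N = 3 m`.  The
tree is a caterpillar: the spine `0, 1, …, J - 1` with `J = 3 N + m`, whose edges are always present,
and a leaf `J + e` at every spine vertex `e`.  The leaves are the jobs: `e < N` is the variable `e`,
`N + j` is the clause `j`, and `N + m + q` with `q < 2 N` is the blocker `q`.  A block of time has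
length `U = J + 2`; a region consists of `m + 2` blocks and there are `2 N` regions; the regions
`2 i` and `2 i + 1` belong to the literals `i` and `not i`.  In the region `q`:
the variable `q / 2` can be entered or left at the offset `0` of the block `0` and at the offset `1`
of the block `m`; the clause `j` can be entered or left at the offsets `0` and `1` of the block
`j + 1`, if the literal of `q` is in the clause; the blocker `q` can be entered or left at the
offsets `0` and `1` of the block `m + 1`.  There is no other presence.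
The time limit is the arrival at the last blocker.
All blockers must be entered at the offset `0`, so the variable job `i` occupies the whole region
`2 i` or `2 i + 1` (this literal is false), and the clause `j` must be visited in a free region.
-/

set_option autoImplicit false

namespace Pool.Agent.T2h8.PT

open Pool.Agent.NPC Pool.Agent.H801.Pt

/-- formulas -/
abbrev Fm : Type := List (Lit ℕ × Lit ℕ × Lit ℕ)

/-- the number of variables -/
def nv (φ : Fm) : ℕ := 3 * φ.length

/-- the number of jobs -/
def JJ (φ : Fm) : ℕ := 3 * nv φ + φ.length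

/-- the length of a block of time -/
def UU (φ : Fm) : ℕ := JJ φ + 2

/-- the time at the offset `z` of the block `k` of the region `q` -/
def tm (φ : Fm) (q k z : ℕ) : ℕ := (q * (φ.length + 2) + k) * UU φ + z

/-- the period -/
def PP (φ : Fm) : ℕ := 2 * nv φ * (φ.length + 2) * UU φ

/-- the time limit -/
def TT (φ : Fm) : ℕ := tm φ (2 * nv φ - 1) (φ.length + 1) 1

/-- the region of a literal -/
def reg (l : Lit ℕ) : ℕ := if l.1 = true then 2 * l.2 else 2 * l.2 + 1

/-- the `j`-th clause -/
def cls (φ : Fm) (j : ℕ) : Lit ℕ × Lit ℕ × Lit ℕ := φ.getD j ((true, 0), (true, 0), (true, 0))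

/-- is the edge of the job `e` present in the region `q` at the offset `z` of the block `k`? -/
def presq (φ : Fm) (e q k z : ℕ) : Bool :=
  if e < nv φ then
    (decide (q = 2 * e) || decide (q = 2 * e + 1)) &&
      ((decide (k = 0) && decide (z = 0)) || (decide (k = φ.length) && decide (z = 1)))
  else if e < nv φ + φ.length then
    (decide (q = reg (cls φ (e - nv φ)).1) || (decide (q = reg (cls φ (e - nv φ)).2.1) ||
        decide (q = reg (cls φ (e - nv φ)).2.2))) &&
      (decide (k = e - nv φ + 1) && decide (z ≤ 1))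
  else
    decide (q + (nv φ + φ.length) = e) && (decide (k = φ.length + 1) && decide (z ≤ 1))

/-- is the edge of the job `e` present at the time `x`? -/
def pres (φ : Fm) (e x : ℕ) : Bool :=
  presq φ e (x / UU φ / (φ.length + 2)) (x / UU φ % (φ.length + 2)) (x % UU φ)

/-- the tree -/
def tree (φ : Fm) : Tr :=
  (List.range (2 * JJ φ - 1)).map (fun k =>
    if k + 1 < JJ φ then (k, (List.range (PP φ)).map (fun _ => true))
    else (k + 1 - JJ φ, (List.range (PP φ)).map (fun x => pres φ (k + 1 - JJ φ) x)))

/-- the degree of a vertex -/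
def deg (T : Tr) (v : ℕ) : ℕ :=
  ((Finset.Icc 1 T.length).filter (fun i => par T i = v)).card + (if v = 0 then 0 else 1)

/-- the maximum degree is at most `d` -/
def MaxDeg (d : ℕ) (T : Tr) : Prop := ∀ v ≤ T.length, deg T v ≤ d

/-- The decision problem: given a period `p`, a periodic temporal tree `T` of period `p` and of
maximum degree at most three, and a time `t`, is the cover time at most `t`? -/
def Dmvp (x : ℕ × Tr × ℕ) : Prop :=
  1 ≤ x.1 ∧ Legal x.1 x.2.1 ∧ MaxDeg 3 x.2.1 ∧ coverTime x.1 x.2.1 ≤ x.2.2

/-- the instance -/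
def inst (φ : Fm) : ℕ × Tr × ℕ := (PP φ, tree φ, TT φ)

/-! ### The tasks -/

/-- Task `ACC` (60 lines): access to the tree.
The length is that of `List.range`.  For `1 ≤ i ≤ 2 J - 1` the entry `i - 1` of the list is the value
of the function at `k = i - 1` (`List.getD_eq_getElem`, `List.getElem_map`, `List.getElem_range`);
`k + 1 = i`; for `i < J` it is the first case, and for `i = J + e` the second one (`k + 1 - J = e`).
Note `J ≥ 1` because `φ ≠ []`. -/
def S_ACC : Prop := ∀ φ : Fm, φ ≠ [] →
  (tree φ).length = 2 * JJ φ - 1 ∧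
  (∀ i, 1 ≤ i → i < JJ φ → par (tree φ) i = i - 1 ∧ (pat (tree φ) i).length = PP φ ∧
    ∀ r < PP φ, pre (tree φ) i r = true) ∧
  (∀ e, e < JJ φ → par (tree φ) (JJ φ + e) = e ∧ (pat (tree φ) (JJ φ + e)).length = PP φ ∧
    ∀ r < PP φ, pre (tree φ) (JJ φ + e) r = pres φ e r)

/-- Task `TIM` (60 lines): arithmetic of times.
First two: `Nat.div_add_mod`, uniqueness of quotient and remainder (`z < U`, `k < m + 2`).
Third: `tm φ q k z < (q (m + 2) + k + 1) U ≤ (q + 1) (m + 2) U ≤ 2 N (m + 2) U`.
Fourth: every `x < PP φ` is of the form `tm φ q k z`, with `q = x / U / (m + 2)` and so on. -/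
def S_TIM : Prop := ∀ φ : Fm,
  (∀ e q k z, k < φ.length + 2 → z < UU φ → pres φ e (tm φ q k z) = presq φ e q k z) ∧
  (∀ q k z, k < φ.length + 2 → z < UU φ → q < 2 * nv φ → tm φ q k z < PP φ) ∧
  (∀ x, x < PP φ → ∃ q k z, q < 2 * nv φ ∧ k < φ.length + 2 ∧ z < UU φ ∧ x = tm φ q k z) ∧
  (∀ q k z q' k' z', k < φ.length + 2 → z < UU φ → k' < φ.length + 2 → z' < UU φ →
    (tm φ q k z < tm φ q' k' z' ↔ q < q' ∨ (q = q' ∧ (k < k' ∨ (k = k' ∧ z < z')))))

/-- Task `LEG` (120 lines, from `ACC` and `TIM`): the instances are legal, of maximum degree three.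
`Legal`: for `1 ≤ i < J` all is clear (`PP φ > 0`).  For `i = J + e`: the parent is `e < i`; presence
at least once: for `e < N` at `tm φ (2 e) 0 0`, for `e = N + j`, `j < m`, at `tm φ q (j + 1) 0` with
`q = reg (cls φ j).1` (`q < 2 N` as the formula is bounded), for `e = N + m + q` at
`tm φ q (m + 1) 0`.  All three times are below the period by `TIM`, and `TIM` gives `pres`.
`MaxDeg 3`: the `i` in `[1, 2 J - 1]` with parent `v` are among `v + 1` and `J + v`, hence the
degree is at most `2 + 1`. -/
def S_LEG : Prop := ∀ φ : Fm, Bounded3 φ → φ ≠ [] → Legal (PP φ) (tree φ) ∧ MaxDeg 3 (tree φ)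

/-- Task `SCH` (120 lines, no dependencies): schedules.  In the block `K` of length `J + 2` the agent
deals with the leaf `J + job K` of the spine vertex `job K < J`; `inn K`: it is in this leaf at the
offset `0`; `act K`: it is in this leaf at the offset `1`.
Define `w a b s = if a ≤ b then min (a + s) b else max (a - s) b` (a walk on the spine), and
`pos (K (J + 2) + z)` for `z < J + 2` as: for `z = 0`: `J + job K` if `inn K`, else `job K`;
for `z = 1`: `J + job K` if `act K`, else `job K`; for `z ≥ 2`: `J + job K` if `inn (K + 1)`, else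
`w (job K) (job (K + 1)) (z - 2)`.  At `z = J + 1` the walk has done `J - 1` steps, so it has arrived
at `job (K + 1)` since the distance is at most `J - 1`; hence it can stay there for the last step. -/
def S_SCH : Prop := ∀ (J : ℕ) (job : ℕ → ℕ) (inn act : ℕ → Prop), (∀ K, job K < J) →
  (∀ K, inn K → act K) → (∀ K, inn (K + 1) → act K ∧ job (K + 1) = job K) → ¬ inn 0 →
  ∃ pos : ℕ → ℕ, (∀ K, ¬ inn K → pos (K * (J + 2)) = job K) ∧
    (∀ K, act K → pos (K * (J + 2) + 1) = J + job K) ∧
    ∀ x, pos x = pos (x + 1) ∨
      (pos x < J ∧ pos (x + 1) < J ∧ (pos (x + 1) = pos x + 1 ∨ pos x = pos (x + 1) + 1)) ∨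
      (∃ K, ¬ inn K ∧ act K ∧ x = K * (J + 2) ∧ pos x = job K ∧ pos (x + 1) = J + job K) ∨
      (∃ K, act K ∧ ¬ inn (K + 1) ∧ x = K * (J + 2) + 1 ∧ pos x = J + job K ∧
        pos (x + 1) = job K)

/-- Task `FWD` (200 lines, from `ACC`, `TIM`, `SCH`).
Let `τ` satisfy `φ`.  `occ q` : `τ (q / 2) = decide (q % 2 = 1)` (the literal of the region `q` is
false).  For every `j < m` choose a region `s j` such that the literal of the region `s j` is in the
clause `j` (`s j = reg` of it) and true, so `s j < 2 N` and not `occ (s j)`.  For a block `K` let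
`q = K / (m + 2)`, `k = K % (m + 2)`.  Put
`act K : q < 2 N ∧ ((occ q ∧ k ≤ m) ∨ (1 ≤ k ∧ k ≤ m ∧ s (k - 1) = q) ∨ k = m + 1)`,
`inn K : q < 2 N ∧ occ q ∧ 1 ≤ k ∧ k ≤ m`,
`job K = if q < 2 N then (if k = m + 1 then N + m + q else if occ q then q / 2 else N + (k - 1))
else 0`, except that `job K = 0` for `k = 0` and not `occ q`.
`SCH` gives `pos`.  `pos 0 = job 0 = 0` in both cases.  Steps for `x < TT φ`: crossing a spine edge is
possible (`ACC`); crossing the edge of `job K` at `x = tm φ q k 0` or `tm φ q k 1`
needs `presq φ (job K) q k z = true`: in the case `act K`, `¬ inn K` we have `occ q` and `k = 0`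
(variable `q / 2`, `z = 0`), or the clause `k - 1` with `s (k - 1) = q`, or the blocker; in the case
`act K`, `¬ inn (K + 1)`: `occ q` and `k = m` (`z = 1`), or the clause, or the blocker.
(For `x < TT φ < PP φ` the residue is `x` itself; if `2 N ≤ q` then `x` is too large.)
Coverage: the variable `i`: `K = q (m + 2)` with `q = 2 i` or `2 i + 1` such that `occ q`;
the clause `j`: `K = s j * (m + 2) + (j + 1)`; the blocker `q`: `K = q (m + 2) + m + 1`; in these
blocks `act K` and not `inn K`, so the spine vertex is visited at `tm φ q k 0` and the leaf at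
`tm φ q k 1 ≤ TT φ`. -/
def S_FWD : Prop := ∀ φ : Fm, Bounded3 φ → φ ≠ [] → SAT3 φ → Covers (PP φ) (tree φ) (TT φ)

/-- Task `ENT` (120 lines, from `ACC`): entering a leaf, and staying in it.
The leaf `J + e` is not a parent, so the only edge at it is the edge number `J + e`, with the other
end `e`.  First part: let `y + 1` be the first time at which the agent is in `J + e`
(it is not there at time `0`), then it crosses this edge at the time `y`.  Second part: induction
on `b`. -/
def S_ENT : Prop := ∀ (φ : Fm), φ ≠ [] → ∀ (t : ℕ) (pos : ℕ → ℕ), t < PP φ → pos 0 = 0 →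
  (∀ τ < t, Stp (PP φ) (tree φ) τ (pos τ) (pos (τ + 1))) →
  (∀ e < JJ φ, ∀ x ≤ t, pos x = JJ φ + e →
    ∃ y < x, pos y = e ∧ pos (y + 1) = JJ φ + e ∧ pres φ e y = true) ∧
  (∀ e < JJ φ, ∀ a b, a ≤ b → b ≤ t → pos a = JJ φ + e →
    (∀ y, a ≤ y → y < b → pres φ e y = false) → pos b = JJ φ + e)

/-- Task `BLK` (150 lines, from `TIM`, `ENT`): at the offset `0` of the last block of the region `q`
the agent is at the spine vertex of the blocker `q`, for every `q`.
The leaf of the blocker `q` is visited, so it is entered (`ENT`) at a time `y < TT φ` with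
`pres φ (N + m + q) y = true`, that is `y = tm φ q (m + 1) 0` or `y = tm φ q (m + 1) 1` (`TIM`).
In the first case we are done.  In the second case, `q < 2 N - 1` because `y < TT φ`, and the agent
is in the leaf of the blocker `q` at the time `y + 1`, stays there until `TT φ` (there is no further
presence before `PP φ`), in particular at the time at which the last blocker `2 N - 1` is entered:
a contradiction. -/
def S_BLK : Prop := ∀ (φ : Fm), φ ≠ [] → ∀ (pos : ℕ → ℕ), pos 0 = 0 →
  (∀ τ < TT φ, Stp (PP φ) (tree φ) τ (pos τ) (pos (τ + 1))) →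
  (∀ v ≤ (tree φ).length, ∃ τ ≤ TT φ, pos τ = v) →
  ∀ q < 2 * nv φ, pos (tm φ q (φ.length + 1) 0) = nv φ + φ.length + q

/-- Task `VAR` (120 lines, from `TIM`, `ENT`, `BLK`): every variable job occupies one of its regions.
The leaf of the variable `i` is entered at a time `y` with `pres φ i y = true`, that is
`y = tm φ q 0 0` or `y = tm φ q m 1` with `q = 2 i` or `q = 2 i + 1`.  In the second case there is no
presence from `tm φ q m 2` to `tm φ q (m + 1) 0`, so the agent is in the leaf of `i` at
`tm φ q (m + 1) 0`, against `BLK`.  In the first case there is no presence from `tm φ q 0 1` to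
`tm φ q m 0`, so the agent is in the leaf until `tm φ q m 1`. -/
def S_VAR : Prop := ∀ (φ : Fm), φ ≠ [] → ∀ (pos : ℕ → ℕ), pos 0 = 0 →
  (∀ τ < TT φ, Stp (PP φ) (tree φ) τ (pos τ) (pos (τ + 1))) →
  (∀ v ≤ (tree φ).length, ∃ τ ≤ TT φ, pos τ = v) →
  ∀ i < nv φ, ∃ q, (q = 2 * i ∨ q = 2 * i + 1) ∧
    ∀ y, tm φ q 0 1 ≤ y → y ≤ tm φ q φ.length 1 → pos y = JJ φ + i

/-- Task `BACK` (100 lines, from `TIM`, `ENT`, `VAR`).
Put `τ i = true` iff the region `2 i + 1` is occupied, i.e. `pos (tm φ (2 i + 1) 0 1) = J + i`.
Let `c` be the clause number `j < m`.  Its leaf is entered at a time `y` with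
`pres φ (N + j) y = true`, so `y = tm φ q (j + 1) z`, `z ≤ 1`, with `q = reg l` and `l` a literal of
`c`, and `pos y = N + j`.  As `tm φ q 0 1 ≤ y ≤ tm φ q m 1`, the region `q` is not occupied by the
variable of `l`.  If `l = (true, i)`, `q = 2 i`: `VAR` says that the region `2 i + 1` is occupied, so
`τ i = true`.  If `l = (false, i)`, `q = 2 i + 1`: here `τ i` must be `false`: if
`pos (tm φ q 0 1) = J + i` then the agent stays in this leaf until `tm φ q m 1` (`ENT`). -/
def S_BACK : Prop := ∀ φ : Fm, Bounded3 φ → φ ≠ [] → Covers (PP φ) (tree φ) (TT φ) → SAT3 φ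

/-- Task `CT` (40 lines).  `coverTime p T` is the least `t` with `Covers p T t` (`Nat.sInf_mem`,
nonempty by `exists_covers` of `Pool.Agent.H801.Pt.Correct`); `Covers p T t` is monotone in `t`:
the agent waits (change `pos` after the time `t` to be constant). -/
def S_CT : Prop := ∀ (p : ℕ) (T : Tr) (t : ℕ), 1 ≤ p → Legal p T →
  (coverTime p T ≤ t ↔ Covers p T t)

/-- Task `POLY` (100-150 lines): the reduction is polynomial-time computable.  Use the combinators of
`Pool.Agent.NPC` (`Poly`, `fun_prop` with `Pool.Agent.H671R2.PolyAuto`); examples of the same kind: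
`Pool/Agent/T2h8/GEO/Red.lean`, `Pool/Agent/Y815/GI/Red.lean`. -/
def S_POLY : Prop := Poly inst

/-- Task `NP` (200-300 lines): the decision problem is in `NP` (`inNPP_of` of
`Pool.Agent.NPC.Dec`).  By `exists_covers` there is a covering walk of length less than
`bnd p T` (`Pool.Agent.H801.Pt`; it is polynomial in the length of the input), so
`coverTime p T ≤ t` iff there are `t' ≤ t`, `t' < bnd p T` and a covering walk of length `t'`.  The
certificate is the list of the positions; its size is polynomial.  The verification: `1 ≤ p`,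
`Legal p T` (bounded quantifiers over the list), `MaxDeg 3 T`, every step is a `Stp`, every vertex
occurs. -/
def S_NP : Prop := InNPP Dmvp

end Pool.Agent.T2h8.PT
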