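import Pool.Agent.T2h8.PT.Stm
import Pool.Agent.H671R2.PolyAuto

/-!
# Task NP: the decision problem is in NP
-/

set_option autoImplicit false

namespace Pool.Agent.T2h8.PT.NPt

open Pool.Agent.NPC Pool.Agent.H801.Pt Pool.Agent.T2h8.PT

/-- test of a step -/
def stpB (p : ℕ) (T : Tr) (τ x y : ℕ) : Bool :=
  decide (x = y) || (List.range T.length).any fun i => pre T (i + 1) (τ % p) &&
    ((decide (x = i + 1) && decide (y = par T (i + 1))) ||
      (decide (x = par T (i + 1)) && decide (y = i + 1)))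

/-- test of legality -/
def legB (p : ℕ) (T : Tr) : Bool :=
  (List.range T.length).all fun i => decide (par T (i + 1) < i + 1) &&
    (decide ((pat T (i + 1)).length = p) && (pat T (i + 1)).any fun b => b)

/-- test of the degrees -/
def degB (T : Tr) : Bool :=
  (List.range (T.length + 1)).all fun v =>
    decide (((List.range T.length).filter fun i => decide (par T (i + 1) = v)).length +
      (if v = 0 then 0 else 1) ≤ 3)

/-- test of the walk -/
def walkB (p : ℕ) (T : Tr) (t : ℕ) (w : List ℕ) : Bool :=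
  decide (w.length ≤ t + 1) && (decide (w.head? = some 0) &&
    (((List.range w.tail.length).all fun τ => stpB p T τ (w.getD τ 0) (w.getD (τ + 1) 0)) &&
      ((List.range (T.length + 1)).all fun v => decide (v ∈ w))))

/-- the verifier -/
def ver (x : (ℕ × Tr × ℕ) × List ℕ) : Bool :=
  decide (1 ≤ x.1.1) && (legB x.1.1 x.1.2.1 && (degB x.1.2.1 && walkB x.1.1 x.1.2.1 x.1.2.2 x.2))

section
variable {α : Type} [TEnc α]

@[fun_prop] theorem p_par {T : α → Tr} {i : α → ℕ} (hT : Poly T) (hi : Poly i) :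
    Poly (fun a => par (T a) (i a)) := by unfold par; fun_prop

@[fun_prop] theorem p_pat {T : α → Tr} {i : α → ℕ} (hT : Poly T) (hi : Poly i) :
    Poly (fun a => pat (T a) (i a)) := by unfold pat; fun_prop

@[fun_prop] theorem p_pre {T : α → Tr} {i r : α → ℕ} (hT : Poly T) (hi : Poly i) (hr : Poly r) :
    Poly (fun a => pre (T a) (i a) (r a)) := by unfold pre; fun_prop

@[fun_prop] theorem p_rl {β : Type} [TEnc β] {l : α → List β} (hl : Poly l) :
    Poly (fun a => List.range (l a).length) := Poly.range_length hl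

@[fun_prop] theorem p_rl1 {β : Type} [TEnc β] {l : α → List β} (hl : Poly l) :
    Poly (fun a => List.range ((l a).length + 1)) :=
  UPoly.range (UPoly.add (UPoly.length hl) (UPoly.const 1))

@[fun_prop] theorem p_stp {p τ x y : α → ℕ} {T : α → Tr} (hp : Poly p) (hT : Poly T) (hτ : Poly τ)
    (hx : Poly x) (hy : Poly y) : Poly (fun a => stpB (p a) (T a) (τ a) (x a) (y a)) := by
  unfold stpB; fun_prop

@[fun_prop] theorem p_leg {p : α → ℕ} {T : α → Tr} (hp : Poly p) (hT : Poly T) :
    Poly (fun a => legB (p a) (T a)) := by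
  unfold legB; fun_prop

@[fun_prop] theorem p_deg {T : α → Tr} (hT : Poly T) : Poly (fun a => degB (T a)) := by
  unfold degB; fun_prop

@[fun_prop] theorem p_walk {p t : α → ℕ} {T : α → Tr} {w : α → List ℕ} (hp : Poly p) (hT : Poly T)
    (ht : Poly t) (hw : Poly w) : Poly (fun a => walkB (p a) (T a) (t a) (w a)) := by
  unfold walkB; fun_prop

end

theorem p_ver : Poly ver := by unfold ver; fun_prop

theorem stpB_iff (p : ℕ) (T : Tr) (τ x y : ℕ) : stpB p T τ x y = true ↔ Stp p T τ x y := by
  unfold stpB Stp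
  rw [Bool.or_eq_true, decide_eq_true_eq, List.any_eq_true]
  refine or_congr Iff.rfl ?_
  constructor
  · rintro ⟨i, hi, h⟩
    rw [List.mem_range] at hi
    simp only [Bool.and_eq_true, Bool.or_eq_true, decide_eq_true_eq] at h
    exact ⟨i + 1, by omega, by omega, h.1, h.2⟩
  · rintro ⟨i, h1, h2, h3, h4⟩
    refine ⟨i - 1, List.mem_range.2 (by omega), ?_⟩
    rw [show i - 1 + 1 = i from by omega]
    simp only [Bool.and_eq_true, Bool.or_eq_true, decide_eq_true_eq]
    exact ⟨h3, h4⟩

theorem any_iff (l : List Bool) : (l.any fun b => b) = true ↔ ∃ r < l.length, l.getD r false = true := by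
  rw [List.any_eq_true]
  constructor
  · rintro ⟨b, hb, rfl⟩
    obtain ⟨n, hn, h⟩ := List.mem_iff_getElem.1 hb
    exact ⟨n, hn, by rw [List.getD_eq_getElem _ _ hn, h]⟩
  · rintro ⟨r, hr, h⟩
    rw [List.getD_eq_getElem _ _ hr] at h
    exact ⟨true, by rw [← h]; exact List.getElem_mem hr, rfl⟩

theorem legB_iff (p : ℕ) (T : Tr) : legB p T = true ↔ Legal p T := by
  unfold legB Legal
  rw [List.all_eq_true]
  constructor
  · intro h i h1 h2
    have h3 := h (i - 1) (List.mem_range.2 (by omega))
    rw [show i - 1 + 1 = i from by omega] at h3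
    simp only [Bool.and_eq_true, decide_eq_true_eq] at h3
    obtain ⟨h4, h5, h6⟩ := h3
    refine ⟨h4, h5, ?_⟩
    rw [any_iff, h5] at h6
    exact h6
  · intro h i hi
    rw [List.mem_range] at hi
    obtain ⟨h4, h5, h6⟩ := h (i + 1) (by omega) (by omega)
    simp only [Bool.and_eq_true, decide_eq_true_eq]
    refine ⟨h4, h5, ?_⟩
    rw [any_iff, h5]
    exact h6

theorem degB_iff (T : Tr) : degB T = true ↔ MaxDeg 3 T := by
  unfold degB MaxDeg deg
  rw [List.all_eq_true]
  have key : ∀ v : ℕ, ((Finset.Icc 1 T.length).filter (fun i => par T i = v)).card =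
      ((List.range T.length).filter fun i => decide (par T (i + 1) = v)).length := by
    intro v
    have h1 : (Finset.Icc 1 T.length).filter (fun i => par T i = v) =
        ((Finset.range T.length).filter (fun i => par T (i + 1) = v)).image (fun i => i + 1) := by
      ext i
      simp only [Finset.mem_filter, Finset.mem_Icc, Finset.mem_image, Finset.mem_range]
      constructor
      · rintro ⟨⟨h1, h2⟩, h3⟩
        exact ⟨i - 1, ⟨by omega, by rw [show i - 1 + 1 = i from by omega]; exact h3⟩, by omega⟩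
      · rintro ⟨j, ⟨h1, h2⟩, rfl⟩
        exact ⟨⟨by omega, by omega⟩, h2⟩
    rw [h1, Finset.card_image_of_injective _ (fun a b h => by simpa using h)]
    rfl
  constructor
  · intro h v hv
    have h1 := h v (List.mem_range.2 (by omega))
    rw [decide_eq_true_eq] at h1
    rw [key]
    exact h1
  · intro h v hv
    have h1 := h v (by rw [List.mem_range] at hv; omega)
    rw [key] at h1
    rw [decide_eq_true_eq]
    exact h1

theorem covers_of_walk {p : ℕ} {T : Tr} {t : ℕ} {w : List ℕ} (h : walkB p T t w = true) :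
    ∃ t' ≤ t, Covers p T t' := by
  unfold walkB at h
  simp only [Bool.and_eq_true, decide_eq_true_eq, List.all_eq_true, List.mem_range] at h
  obtain ⟨h1, h2, h3, h4⟩ := h
  cases w with
  | nil => simp at h2
  | cons a l =>
    simp only [List.head?_cons, Option.some.injEq] at h2
    subst h2
    simp only [List.length_cons, List.tail_cons] at h1 h3
    refine ⟨l.length, by omega, fun τ => (0 :: l).getD τ 0, rfl, ?_, ?_⟩
    · intro τ hτ
      exact (stpB_iff _ _ _ _ _).1 (h3 τ hτ)
    · intro v hv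
      obtain ⟨n, hn, h5⟩ := List.mem_iff_getElem.1 (h4 v (by omega))
      refine ⟨n, by simp only [List.length_cons] at hn; omega, ?_⟩
      show (0 :: l).getD n 0 = v
      rw [List.getD_eq_getElem _ _ hn, h5]

theorem pos_le {p : ℕ} {T : Tr} (hT : Legal p T) {t : ℕ} {pos : ℕ → ℕ} (h0 : pos 0 = 0)
    (h : ∀ τ < t, Stp p T τ (pos τ) (pos (τ + 1))) : ∀ τ ≤ t, pos τ ≤ T.length := by
  intro τ
  induction τ with
  | zero => intro _; omega
  | succ τ ih =>
    intro hτ
    have h1 := ih (by omega)
    rcases h τ (by omega) with h2 | ⟨i, h2, h3, _, ⟨_, h4⟩ | ⟨_, h4⟩⟩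
    · omega
    · have := (hT i h2 h3).1
      omega
    · omega

theorem walk_of_covers {p : ℕ} {T : Tr} (hT : Legal p T) {t' t : ℕ} (htt : t' ≤ t)
    (h : Covers p T t') : ∃ w : List ℕ, w.length = t' + 1 ∧ (∀ x ∈ w, x ≤ T.length) ∧
      walkB p T t w = true := by
  obtain ⟨pos, h0, h1, h2⟩ := h
  have hget : ∀ τ ≤ t', ((List.range (t' + 1)).map pos).getD τ 0 = pos τ := by
    intro τ hτ
    rw [List.getD_eq_getElem _ _ (by simp; omega), List.getElem_map, List.getElem_range]
  refine ⟨(List.range (t' + 1)).map pos, by simp, ?_, ?_⟩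
  · intro x hx
    obtain ⟨τ, hτ, rfl⟩ := List.mem_map.1 hx
    rw [List.mem_range] at hτ
    exact pos_le hT h0 h1 τ (by omega)
  · unfold walkB
    simp only [Bool.and_eq_true, decide_eq_true_eq, List.all_eq_true, List.mem_range]
    refine ⟨by simp; omega, ?_, ?_, ?_⟩
    · rw [List.range_succ_eq_map]
      simp [h0]
    · intro τ hτ
      rw [List.length_tail, List.length_map, List.length_range] at hτ
      rw [hget τ (by omega), hget (τ + 1) (by omega), stpB_iff]
      exact h1 τ (by omega)
    · intro v hv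
      obtain ⟨τ, h3, h4⟩ := h2 v (by omega)
      exact List.mem_map.2 ⟨τ, List.mem_range.2 (by omega), h4⟩

theorem sz_bnd {p : ℕ} {T : Tr} (hT : Legal p T) : bnd p T ≤ 2 * sz T ^ 3 + 1 := by
  have h1 := length_lt_sz T
  by_cases h0 : T.length = 0
  · unfold bnd
    rw [h0]
    omega
  · obtain ⟨_, h2, _⟩ := hT 1 le_rfl (by omega)
    have h3 : p ≤ sz T := by
      have h4 : T.getD 0 (0, []) ∈ T := by
        rw [List.getD_eq_getElem _ _ (by omega)]
        exact List.getElem_mem _
      have h5 := sz_le_of_mem h4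
      have h6 : sz (T.getD 0 (0, [])) = sz (T.getD 0 (0, [])).1 + sz (T.getD 0 (0, [])).2 + 1 :=
        sz_pair _ _
      have h7 := length_lt_sz (T.getD 0 (0, [])).2
      have h8 : (T.getD 0 (0, [])).2.length = p := h2
      omega
    unfold bnd
    have h4 : p * (T.length * T.length) ≤ sz T * (sz T * sz T) :=
      Nat.mul_le_mul h3 (Nat.mul_le_mul h1.le h1.le)
    nlinarith

theorem t_aux (a : ℕ × Tr × ℕ) : Dmvp a ↔ ∃ w : List ℕ,
    sz w ≤ ((2 * Polynomial.X ^ 3 + 1) * (4 * Polynomial.X + 2) + 1 : Polynomial ℕ).eval (sz a) ∧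
      ver (a, w) = true := by
  obtain ⟨p, T, t⟩ := a
  unfold Dmvp ver
  simp only [Bool.and_eq_true, decide_eq_true_eq, legB_iff, degB_iff]
  constructor
  · rintro ⟨h1, h2, h3, h4⟩
    obtain ⟨t0, ht0, hc0⟩ := exists_covers h2
    have h5 : coverTime p T ≤ t0 := Nat.sInf_le hc0
    have h6 : Covers p T (coverTime p T) := Nat.sInf_mem (s := {t | Covers p T t}) ⟨t0, hc0⟩
    obtain ⟨w, hw1, hw2, hw3⟩ := walk_of_covers h2 h4 h6
    refine ⟨w, ?_, h1, h2, h3, hw3⟩
    have h7 : ∀ x ∈ w, sz x ≤ 4 * sz T + 1 := by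
      intro x hx
      have e1 := sz_nat_le x
      have e2 := Poly.size_le_self x
      have e3 := hw2 x hx
      have e4 := length_lt_sz T
      omega
    have h8 := sz_le_length_mul w (4 * sz T + 1) h7
    have h9 := sz_bnd h2
    have h10 : sz T ≤ sz (p, T, t) := by simp only [sz_pair]; omega
    have h11 : w.length ≤ 2 * sz (p, T, t) ^ 3 + 1 := by
      have e1 : sz T ^ 3 ≤ sz (p, T, t) ^ 3 := Nat.pow_le_pow_left h10 3
      omega
    simp only [Polynomial.eval_add, Polynomial.eval_mul, Polynomial.eval_pow, Polynomial.eval_X,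
      Polynomial.eval_one, Polynomial.eval_ofNat]
    refine h8.trans (Nat.add_le_add_right (Nat.mul_le_mul h11 ?_) 1)
    omega
  · rintro ⟨w, -, h1, h2, h3, h4⟩
    obtain ⟨t', ht', hc⟩ := covers_of_walk h4
    exact ⟨h1, h2, h3, (Nat.sInf_le hc : coverTime p T ≤ t').trans ht'⟩

end Pool.Agent.T2h8.PT.NPt

namespace Pool.Agent.T2h8.PT

theorem t_NP : S_NP := NPC.inNPP_of NPt.p_ver _ NPt.t_aux

end Pool.Agent.T2h8.PT
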